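import Mathlib

set_option autoImplicit false

namespace Pool.Agent.Work.MP_70d3c3_lc

/-- total size of the items which the rule `A` puts into bin `b` -/
noncomputable def load (A : List ℝ → ℝ → ℕ) (L : List ℝ) (b : ℕ) : ℝ :=
  ∑ i ∈ (Finset.univ : Finset (Fin L.length)).filter
    (fun i : Fin L.length => A (L.take (i : ℕ)) (L.get i) = b), L.get i

/-- the bins used -/
def used (A : List ℝ → ℝ → ℕ) (L : List ℝ) : Finset ℕ :=
  (Finset.univ : Finset (Fin L.length)).image
    (fun i : Fin L.length => A (L.take (i : ℕ)) (L.get i))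

lemma sum_fin_append {M : Type*} [AddCommMonoid M] (φ : List ℝ → ℝ → M) (L : List ℝ) (x : ℝ) :
    ∑ i : Fin (L ++ [x]).length, φ ((L ++ [x]).take (i : ℕ)) ((L ++ [x]).get i)
      = ∑ i : Fin L.length, φ (L.take (i : ℕ)) (L.get i) + φ L x := by
  have h1 : ∀ (K : List ℝ), ∑ i : Fin K.length, φ (K.take (i : ℕ)) (K.get i)
      = ∑ i ∈ Finset.range K.length, φ (K.take i) (K.getD i 0) := by
    intro K
    rw [Finset.sum_range]
    apply Finset.sum_congr rfl
    intro i _
    congr 1
    simp
  rw [h1, h1, List.length_append, List.length_singleton, Finset.sum_range_succ]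
  congr 1
  · apply Finset.sum_congr rfl
    intro i hi
    rw [Finset.mem_range] at hi
    congr 1
    · rw [List.take_append_of_le_length hi.le]
    · rw [List.getD_append _ _ _ _ hi]
  · congr 1
    · rw [List.take_append_of_le_length le_rfl, List.take_length]
    · simp

lemma load_eq (A : List ℝ → ℝ → ℕ) (L : List ℝ) (b : ℕ) :
    load A L b = ∑ i : Fin L.length,
      (fun (p : List ℝ) (x : ℝ) => if A p x = b then x else 0) (L.take (i : ℕ)) (L.get i) := by
  unfold load
  rw [Finset.sum_filter]

@[simp] lemma load_nil (A : List ℝ → ℝ → ℕ) (b : ℕ) : load A [] b = 0 := by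
  rw [load_eq]; simp

lemma load_append (A : List ℝ → ℝ → ℕ) (L : List ℝ) (x : ℝ) (b : ℕ) :
    load A (L ++ [x]) b = load A L b + if A L x = b then x else 0 := by
  rw [load_eq, load_eq]
  exact sum_fin_append (fun (p : List ℝ) (x : ℝ) => if A p x = b then x else 0) L x

@[simp] lemma used_nil (A : List ℝ → ℝ → ℕ) : used A [] = ∅ := by
  unfold used; simp

lemma mem_used (A : List ℝ → ℝ → ℕ) (L : List ℝ) (b : ℕ) :
    b ∈ used A L ↔ ∃ i : Fin L.length, A (L.take (i : ℕ)) (L.get i) = b := by
  unfold used; simp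

lemma used_append (A : List ℝ → ℝ → ℕ) (L : List ℝ) (x : ℝ) :
    used A (L ++ [x]) = insert (A L x) (used A L) := by
  ext b
  rw [Finset.mem_insert, mem_used, mem_used]
  constructor
  · rintro ⟨⟨i, hi⟩, h⟩
    rw [List.length_append, List.length_singleton] at hi
    rcases Nat.lt_succ_iff_lt_or_eq.1 hi with h1 | h1
    · right
      refine ⟨⟨i, h1⟩, ?_⟩
      simp only at h ⊢
      rw [List.take_append_of_le_length h1.le] at h
      rw [← h]
      congr 1
      simp [List.getElem_append_left h1]
    · left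
      subst h1
      simp only at h
      rw [List.take_append_of_le_length le_rfl, List.take_length] at h
      rw [← h]
      congr 1
      simp
  · rintro (h | ⟨⟨i, hi⟩, h⟩)
    · refine ⟨⟨L.length, by simp⟩, ?_⟩
      simp only
      rw [List.take_append_of_le_length le_rfl, List.take_length, h]
      congr 1
      simp
    · refine ⟨⟨i, by simp; omega⟩, ?_⟩
      simp only at h ⊢
      rw [List.take_append_of_le_length hi.le, ← h]
      congr 1
      simp [List.getElem_append_left hi]

/-- properties of an on-line rule for items in the class `S` -/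
structure Good (S : ℝ → Prop) (w : ℝ → ℝ) (k : ℕ) (C : ℝ) (A : List ℝ → ℝ → ℕ) : Prop where
  load_le : ∀ L : List ℝ, (∀ y ∈ L, S y) → ∀ b, load A L b ≤ 1
  open_le : ∀ p : List ℝ, (∀ y ∈ p, S y) → ∃ T : Finset ℕ, T.card ≤ k ∧
    ∀ b ∈ used A p, ∀ (q : List ℝ) (x : ℝ), (∀ y ∈ q, S y) → S x → A (p ++ q) x = b → b ∈ T
  count_le : ∀ L : List ℝ, (∀ y ∈ L, S y) → ((used A L).card : ℝ) ≤ (L.map w).sum + C

end Pool.Agent.Work.MP_70d3c3_lc
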