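import Pool.Agent.Work.MP_70d3c3_lc.Seq
import Pool.Agent.Work.MP_70d3c3_lc.Frame

set_option autoImplicit false

namespace Pool.Agent.Work.MP_70d3c3_lc

/-- the optimal number of bins -/
noncomputable def opt (L : List ℝ) : ℕ :=
  sInf {m : ℕ | ∃ f : Fin L.length → Fin m, ∀ j : Fin m,
    ∑ i ∈ (Finset.univ : Finset (Fin L.length)).filter
      (fun i : Fin L.length => f i = j), L.get i ≤ 1}

/-- valid lists -/
def Val (L : List ℝ) : Prop := ∀ y ∈ L, 0 < y ∧ y ≤ 1

lemma load_nonneg (A : List ℝ → ℝ → ℕ) (L : List ℝ) (hL : Val L) (b : ℕ) : 0 ≤ load A L b := by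
  unfold load
  apply Finset.sum_nonneg
  intro i _
  exact (hL _ (List.get_mem L i)).1.le

lemma opt_mem (L : List ℝ) (hL : Val L) : ∃ f : Fin L.length → Fin (opt L), ∀ j : Fin (opt L),
    ∑ i ∈ (Finset.univ : Finset (Fin L.length)).filter
      (fun i : Fin L.length => f i = j), L.get i ≤ 1 := by
  have hne : {m : ℕ | ∃ f : Fin L.length → Fin m, ∀ j : Fin m,
      ∑ i ∈ (Finset.univ : Finset (Fin L.length)).filter
        (fun i : Fin L.length => f i = j), L.get i ≤ 1}.Nonempty := by
    refine ⟨L.length, id, fun j => ?_⟩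
    have : (Finset.univ : Finset (Fin L.length)).filter (fun i : Fin L.length => id i = j)
        = {j} := by
      ext i; simp
    rw [this, Finset.sum_singleton]
    exact (hL _ (List.get_mem L j)).2
  exact Nat.sInf_mem hne

/-- an offline packing given by an online rule with labels `< n` -/
lemma opt_le (A : List ℝ → ℝ → ℕ) (L : List ℝ) (n : ℕ)
    (h1 : ∀ i : Fin L.length, A (L.take (i : ℕ)) (L.get i) < n)
    (h2 : ∀ b < n, load A L b ≤ 1) : opt L ≤ n := by
  apply Nat.sInf_le
  refine ⟨fun i => ⟨A (L.take (i : ℕ)) (L.get i), h1 i⟩, fun j => ?_⟩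
  have := h2 j j.2
  unfold load at this
  refine le_trans (le_of_eq ?_) this
  apply Finset.sum_congr _ (fun _ _ => rfl)
  ext i
  simp [Fin.ext_iff]

/-- phases -/
def ph (n : ℕ) (x : ℕ → ℝ) : ℕ → List ℝ
  | 0 => []
  | (s + 1) => ph n x s ++ List.replicate n (x s)

lemma ph_succ (n : ℕ) (x : ℕ → ℝ) (s : ℕ) :
    ph n x (s + 1) = ph n x s ++ List.replicate n (x s) := rfl

lemma ph_length (n : ℕ) (x : ℕ → ℝ) (s : ℕ) : (ph n x s).length = s * n := by
  induction s with
  | zero => simp [ph]
  | succ s ih => rw [ph_succ, List.length_append, ih, List.length_replicate]; ring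

lemma ph_val {n : ℕ} {x : ℕ → ℝ} {s : ℕ} (hx : ∀ i < s, 0 < x i ∧ x i ≤ 1) :
    Val (ph n x s) := by
  induction s with
  | zero => intro y hy; simp [ph] at hy
  | succ s ih =>
    intro y hy
    rw [ph_succ, List.mem_append] at hy
    rcases hy with h | h
    · exact ih (fun i hi => hx i (by omega)) y h
    · rw [List.eq_of_mem_replicate h]
      exact hx s (by omega)

lemma replicate_succ_append (p : List ℝ) (r : ℕ) (x : ℝ) :
    p ++ List.replicate (r + 1) x = (p ++ List.replicate r x) ++ [x] := by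
  rw [List.replicate_succ', List.append_assoc]

lemma ph_opt_aux (n : ℕ) (p : List ℝ) (x : ℝ) (s : ℕ) (hp : p.length = s * n) :
    ∀ r ≤ n, ∀ b < n, load (fun q _ => q.length % n) (p ++ List.replicate r x) b
      = load (fun q _ => q.length % n) p b + if b < r then x else 0 := by
  intro r
  induction r with
  | zero => intro _ b _; simp
  | succ r ih =>
    intro hr b hb
    rw [replicate_succ_append, load_append, ih (by omega) b hb]
    have h1 : (p ++ List.replicate r x).length % n = r := by
      rw [List.length_append, hp, List.length_replicate, Nat.mul_comm s n, Nat.mul_add_mod]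
      exact Nat.mod_eq_of_lt (by omega)
    simp only [h1]
    by_cases h : r = b
    · subst h
      simp
    · rw [if_neg h]
      by_cases h2 : b < r
      · rw [if_pos h2, if_pos (by omega)]; ring
      · rw [if_neg h2, if_neg (by omega)]; ring

lemma ph_load (n : ℕ) (x : ℕ → ℝ) (s : ℕ) : ∀ b < n,
    load (fun q _ => q.length % n) (ph n x s) b = ∑ i ∈ Finset.range s, x i := by
  induction s with
  | zero => intro b _; simp [ph]
  | succ s ih =>
    intro b hb
    rw [ph_succ, ph_opt_aux n (ph n x s) (x s) s (ph_length n x s) n le_rfl b hb, ih b hb,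
      if_pos hb, Finset.sum_range_succ]

lemma ph_opt_le {n : ℕ} (hn : 0 < n) (x : ℕ → ℝ) (s : ℕ)
    (hsum : ∑ i ∈ Finset.range s, x i ≤ 1) : opt (ph n x s) ≤ n := by
  apply opt_le (fun q _ => q.length % n)
  · intro i
    exact Nat.mod_lt _ hn
  · intro b hb
    rw [ph_load n x s b hb]
    exact hsum

lemma ph_get {n : ℕ} {x : ℕ → ℝ} {s : ℕ} (hs : 0 < s) (i : ℕ) (hi : i < n)
    (hi' : i < (ph n x s).length) : (ph n x s).get ⟨i, hi'⟩ = x 0 := by
  obtain ⟨s, rfl⟩ : ∃ t, s = t + 1 := ⟨s - 1, by omega⟩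
  clear hs
  induction s with
  | zero =>
    simp [ph]
  | succ s ih =>
    have h2 : i < (ph n x (s + 1)).length := by
      rw [ph_length]; nlinarith
    have := ih h2
    rw [← this]
    simp only [List.get_eq_getElem]
    exact List.getElem_append_left (as := ph n x (s + 1)) (bs := List.replicate n (x (s + 1)))
      (h' := hi') h2

lemma ph_opt_ge {n : ℕ} {x : ℕ → ℝ} {s : ℕ} (hs : 0 < s) (hx : ∀ i < s, 0 < x i ∧ x i ≤ 1)
    (hx0 : 1 / 2 < x 0) : n ≤ opt (ph n x s) := by
  obtain ⟨f, hf⟩ := opt_mem (ph n x s) (ph_val hx)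
  have hlen : n ≤ (ph n x s).length := by rw [ph_length]; nlinarith
  have hinj : Function.Injective (fun i : Fin n => f ⟨i, lt_of_lt_of_le i.2 hlen⟩) := by
    intro i i' h
    by_contra hne
    simp only at h
    have h1 := hf (f ⟨i, lt_of_lt_of_le i.2 hlen⟩)
    have h2 : ∑ k ∈ ({⟨i, lt_of_lt_of_le i.2 hlen⟩, ⟨i', lt_of_lt_of_le i'.2 hlen⟩} :
        Finset (Fin (ph n x s).length)), (ph n x s).get k ≤ 1 := by
      refine le_trans (Finset.sum_le_sum_of_subset_of_nonneg ?_ ?_) h1
      · intro k hk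
        rw [Finset.mem_insert, Finset.mem_singleton] at hk
        rw [Finset.mem_filter]
        refine ⟨Finset.mem_univ _, ?_⟩
        rcases hk with rfl | rfl
        · rfl
        · exact h.symm
      · intro k _ _
        exact (ph_val hx _ (List.get_mem _ k)).1.le
    rw [Finset.sum_pair (by
      intro e
      apply hne
      rw [Fin.mk.injEq] at e
      exact Fin.ext e), ph_get hs i i.2, ph_get hs i' i'.2] at h2
    linarith
  have := Fintype.card_le_of_injective _ hinj
  simpa using this

/-! the lower bound for rules with few open bins -/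

lemma load_phase (A : List ℝ → ℝ → ℕ) (p : List ℝ) (x : ℝ) (b : ℕ) : ∀ r : ℕ,
    load A (p ++ List.replicate r x) b = load A p b +
      (((Finset.range r).filter (fun i => A (p ++ List.replicate i x) x = b)).card : ℝ) * x := by
  intro r
  induction r with
  | zero => simp
  | succ r ih =>
    rw [replicate_succ_append, load_append, ih, Finset.range_add_one, Finset.filter_insert]
    split_ifs with h
    · rw [Finset.card_insert_of_notMem (by simp)]
      push_cast; ring
    · ring

lemma used_phase (A : List ℝ → ℝ → ℕ) (p : List ℝ) (x : ℝ) : ∀ r : ℕ,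
    used A (p ++ List.replicate r x) = used A p ∪
      (Finset.range r).image (fun i => A (p ++ List.replicate i x) x) := by
  intro r
  induction r with
  | zero => simp
  | succ r ih =>
    rw [replicate_succ_append, used_append, ih, Finset.range_add_one, Finset.image_insert,
      Finset.union_insert]

lemma phase_bound {w : ℝ → ℝ} {k : ℕ} {C : ℝ} {A : List ℝ → ℝ → ℕ}
    (hA : Good (fun y => 0 < y ∧ y ≤ 1) w k C A) (p : List ℝ) (hp : Val p) (x : ℝ)
    (c : ℕ) (hc : 0 < c) (hx1 : 1 / ((c : ℝ) + 1) < x) (hx2 : x ≤ 1) (n : ℕ) :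
    ((used A p).card : ℝ) + ((n : ℝ) / c - k) ≤ ((used A (p ++ List.replicate n x)).card : ℝ) := by
  have hcR : (0 : ℝ) < c := by exact_mod_cast hc
  have hx0 : 0 < x := lt_trans (by positivity) hx1
  have hval : ∀ r, Val (p ++ List.replicate r x) := by
    intro r y hy
    rw [List.mem_append] at hy
    rcases hy with h | h
    · exact hp y h
    · rw [List.eq_of_mem_replicate h]; exact ⟨hx0, hx2⟩
  set V := (Finset.range n).image (fun i => A (p ++ List.replicate i x) x) with hV
  -- size of V
  have h1 : n ≤ V.card * c := by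
    have e1 := Finset.card_eq_sum_card_image (fun i => A (p ++ List.replicate i x) x)
      (Finset.range n)
    rw [Finset.card_range] at e1
    rw [e1, ← smul_eq_mul]
    apply Finset.sum_le_card_nsmul
    intro b _
    have e2 := hA.load_le _ (hval n) b
    rw [load_phase] at e2
    have e3 := load_nonneg A p hp b
    by_contra hcon
    rw [not_le] at hcon
    have e4 : ((c : ℝ) + 1) ≤
        (((Finset.range n).filter (fun i => A (p ++ List.replicate i x) x = b)).card : ℝ) := by
      exact_mod_cast hcon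
    have e5 : 1 < x * ((c : ℝ) + 1) := by
      rwa [div_lt_iff₀ (by linarith)] at hx1
    nlinarith
  -- intersection
  obtain ⟨T, hT1, hT2⟩ := hA.open_le p hp
  have h2 : (V ∩ used A p).card ≤ k := by
    refine le_trans (Finset.card_le_card ?_) hT1
    intro b hb
    rw [Finset.mem_inter, hV, Finset.mem_image] at hb
    obtain ⟨⟨i, _, hi⟩, hb2⟩ := hb
    refine hT2 b hb2 (List.replicate i x) x ?_ ⟨hx0, hx2⟩ hi
    intro y hy
    rw [List.eq_of_mem_replicate hy]; exact ⟨hx0, hx2⟩
  have h3 := Finset.card_union_add_card_inter (used A p) V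
  rw [Finset.inter_comm] at h3
  rw [used_phase, ← hV]
  have h4 : (n : ℝ) / c ≤ V.card := by
    rw [div_le_iff₀ hcR]
    exact_mod_cast h1
  have h5 : ((used A p ∪ V).card : ℝ) + ((V ∩ used A p).card : ℝ)
      = ((used A p).card : ℝ) + (V.card : ℝ) := by exact_mod_cast h3
  have h6 : ((V ∩ used A p).card : ℝ) ≤ k := by exact_mod_cast h2
  linarith

theorem lower {w : ℝ → ℝ} {k : ℕ} {C : ℝ} {A : List ℝ → ℝ → ℕ}
    (hA : Good (fun y => 0 < y ∧ y ≤ 1) w k C A) (ε : ℝ) (hε : 0 < ε) (N : ℕ) :
    ∃ L : List ℝ, Val L ∧ N ≤ opt L ∧ (T 0 - ε) * (opt L : ℝ) ≤ ((used A L).card : ℝ) := by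
  -- number of phases
  have hsum : Summable (fun i : ℕ => 1 / (m (i + 0) : ℝ)) := by simpa using summable_inv
  obtain ⟨s, hs0, hs⟩ : ∃ s : ℕ, 0 < s ∧ T 0 - ε / 2 < ∑ i ∈ Finset.range s, 1 / (m i : ℝ) := by
    have ht := hsum.hasSum.tendsto_sum_nat
    have hev := (ht.eventually (lt_mem_nhds (show T 0 - ε / 2 < ∑' i : ℕ, 1 / (m (i + 0) : ℝ) by
      show T 0 - ε / 2 < T 0; linarith))).and (Filter.eventually_gt_atTop 0)
    obtain ⟨s, h1, h2⟩ := hev.exists
    exact ⟨s, h2, by simpa using h1⟩
  have hsR : (0 : ℝ) < s := by exact_mod_cast hs0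
  have hms := mR_pos s
  set δ : ℝ := 1 / ((s : ℝ) * m s) with hδ
  have hδ0 : 0 < δ := by positivity
  set x : ℕ → ℝ := fun i => 1 / ((m i : ℝ) + 1) + δ with hx
  have hxsum : ∑ i ∈ Finset.range s, x i ≤ 1 := by
    rw [hx, Finset.sum_add_distrib, Finset.sum_const, Finset.card_range, nsmul_eq_mul]
    have e1 : ∀ t : ℕ, ∑ i ∈ Finset.range t, 1 / ((m i : ℝ) + 1) = 1 - 1 / (m t : ℝ) := by
      intro t
      induction t with
      | zero => simp [m]
      | succ t ih =>
        rw [Finset.sum_range_succ, ih, ← inv_succ]; ring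
    rw [e1, hδ]
    have : (s : ℝ) * (1 / ((s : ℝ) * m s)) = 1 / (m s : ℝ) := by field_simp
    linarith
  have hxpos : ∀ i, 0 < x i := by
    intro i
    have := mR_pos i
    simp only [hx]; positivity
  have hx1 : ∀ i < s, 0 < x i ∧ x i ≤ 1 := by
    intro i hi
    refine ⟨hxpos i, le_trans ?_ hxsum⟩
    exact Finset.single_le_sum (f := x) (fun k _ => (hxpos k).le) (Finset.mem_range.2 hi)
  -- number of items per phase
  obtain ⟨n0, hn0⟩ := exists_nat_gt (2 * (s : ℝ) * k / ε)
  set n := max (max n0 N) 1 with hn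
  have hnpos : 0 < n := by omega
  have hnN : N ≤ n := by omega
  have hnR : (n0 : ℝ) ≤ n := by exact_mod_cast (by omega : n0 ≤ n)
  have hbound : ∀ t ≤ s, ∑ i ∈ Finset.range t, ((n : ℝ) / (m i : ℝ) - k)
      ≤ ((used A (ph n x t)).card : ℝ) := by
    intro t
    induction t with
    | zero => intro _; simp [ph]
    | succ t ih =>
      intro ht
      rw [Finset.sum_range_succ, ph_succ]
      have h1 := ih (by omega)
      have h2 := phase_bound hA (ph n x t) (ph_val (fun i hi => hx1 i (by omega))) (x t)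
        (m t) (m_pos t) (by simp only [hx]; linarith) (hx1 t (by omega)).2 n
      linarith
  have hopt : opt (ph n x s) = n := by
    apply le_antisymm
    · exact ph_opt_le hnpos x s hxsum
    · apply ph_opt_ge hs0 hx1
      simp only [hx]
      have : ((m 0 : ℕ) : ℝ) = 1 := by simp [m]
      rw [this]; norm_num; exact hδ0
  refine ⟨ph n x s, ph_val hx1, by rw [hopt]; exact hnN, ?_⟩
  rw [hopt]
  refine le_trans ?_ (hbound s le_rfl)
  rw [Finset.sum_sub_distrib, Finset.sum_const, Finset.card_range, nsmul_eq_mul]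
  have e1 : ∑ i ∈ Finset.range s, (n : ℝ) / (m i : ℝ)
      = (n : ℝ) * ∑ i ∈ Finset.range s, 1 / (m i : ℝ) := by
    rw [Finset.mul_sum]
    apply Finset.sum_congr rfl
    intro i _
    ring
  rw [e1]
  have hnRpos : (0 : ℝ) < n := by exact_mod_cast hnpos
  have e2 : (n : ℝ) * (T 0 - ε / 2) ≤ (n : ℝ) * ∑ i ∈ Finset.range s, 1 / (m i : ℝ) :=
    mul_le_mul_of_nonneg_left hs.le hnRpos.le
  have e3 : 2 * (s : ℝ) * k < n * ε := by
    have := lt_of_lt_of_le hn0 hnR
    rwa [div_lt_iff₀ hε] at this
  nlinarith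

end Pool.Agent.Work.MP_70d3c3_lc
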