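import Pool.Agent.Work.MP_70d3c3_lc.Comp
import Pool.Agent.Work.MP_70d3c3_lc.Lower

set_option autoImplicit false

namespace Pool.Agent.Work.MP_70d3c3_lc

lemma Good.mono {S S' : ℝ → Prop} {w : ℝ → ℝ} {k : ℕ} {C : ℝ} {A : List ℝ → ℝ → ℕ}
    (h : Good S w k C A) (hS : ∀ y, S' y → S y) : Good S' w k C A where
  load_le := fun L hL b => h.load_le L (fun y hy => hS y (hL y hy)) b
  open_le := by
    intro p hp
    obtain ⟨T, h1, h2⟩ := h.open_le p (fun y hy => hS y (hp y hy))
    exact ⟨T, h1, fun b hb q x hq hx hA =>
      h2 b hb q x (fun y hy => hS y (hq y hy)) (hS x hx) hA⟩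
  count_le := fun L hL => h.count_le L (fun y hy => hS y (hL y hy))

open Classical in
/-- the seven classes of items -/
noncomputable def cp (x : ℝ) : Fin 7 :=
  if 1 / 2 < x then 0 else if 1 / 3 < x then 1 else if 1 / 4 < x then 2
  else if 1 / 5 < x then 3 else if 1 / 6 < x then 4
  else if 1 / ((m (lev x) : ℝ) + 1) < x then 5 else 6

/-- the sub-rules -/
noncomputable def AA : Fin 7 → List ℝ → ℝ → ℕ :=
  ![hrule 1, hrule 2, hrule 3, hrule 4, hrule 5, rule, rule]

/-- the rule with ratio `h_∞` using at most eleven open bins -/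
noncomputable def best : List ℝ → ℝ → ℕ := comb cp AA

lemma cp_small {y : ℝ} (h : cp y = 5 ∨ cp y = 6) : y ≤ 1 / 6 := by
  unfold cp at h
  split_ifs at h with h1 h2 h3 h4 h5 h6
  · rcases h with h | h <;> exact absurd h (by decide)
  · rcases h with h | h <;> exact absurd h (by decide)
  · rcases h with h | h <;> exact absurd h (by decide)
  · rcases h with h | h <;> exact absurd h (by decide)
  · rcases h with h | h <;> exact absurd h (by decide)
  · linarith
  · linarith

theorem good_best : Good (fun y => 0 < y ∧ y ≤ 1) W 11 13 best := by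
  have h : ∀ c : Fin 7, Good (fun y => (0 < y ∧ y ≤ 1) ∧ cp y = c) W
      ((![1, 1, 1, 1, 1, 3, 3] : Fin 7 → ℕ) c) ((![1, 1, 1, 1, 1, 4, 4] : Fin 7 → ℝ) c)
      (AA c) := by
    intro c
    fin_cases c
    · refine (good_class (c := 1) (by norm_num)).mono ?_
      rintro y ⟨⟨hy0, hy1⟩, hc⟩
      unfold cp at hc
      split_ifs at hc with h1 h2 h3 h4 h5 h6
      · push_cast; constructor <;> linarith
      all_goals exact absurd hc (by decide)
    · refine (good_class (c := 2) (by norm_num)).mono ?_
      rintro y ⟨⟨hy0, hy1⟩, hc⟩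
      unfold cp at hc
      split_ifs at hc with h1 h2 h3 h4 h5 h6
      · exact absurd hc (by decide)
      · push_cast; constructor <;> linarith
      all_goals exact absurd hc (by decide)
    · refine (good_class (c := 3) (by norm_num)).mono ?_
      rintro y ⟨⟨hy0, hy1⟩, hc⟩
      unfold cp at hc
      split_ifs at hc with h1 h2 h3 h4 h5 h6
      · exact absurd hc (by decide)
      · exact absurd hc (by decide)
      · push_cast; constructor <;> linarith
      all_goals exact absurd hc (by decide)
    · refine (good_class (c := 4) (by norm_num)).mono ?_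
      rintro y ⟨⟨hy0, hy1⟩, hc⟩
      unfold cp at hc
      split_ifs at hc with h1 h2 h3 h4 h5 h6
      · exact absurd hc (by decide)
      · exact absurd hc (by decide)
      · exact absurd hc (by decide)
      · push_cast; constructor <;> linarith
      all_goals exact absurd hc (by decide)
    · refine (good_class (c := 5) (by norm_num)).mono ?_
      rintro y ⟨⟨hy0, hy1⟩, hc⟩
      unfold cp at hc
      split_ifs at hc with h1 h2 h3 h4 h5 h6
      · exact absurd hc (by decide)
      · exact absurd hc (by decide)
      · exact absurd hc (by decide)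
      · exact absurd hc (by decide)
      · push_cast; constructor <;> linarith
      all_goals exact absurd hc (by decide)
    · refine (good_three grpC).mono ?_
      rintro y ⟨⟨hy0, hy1⟩, hc⟩
      have h6 := cp_small (Or.inl hc)
      refine ⟨hy0, h6, ?_⟩
      unfold cp at hc
      rw [if_neg (by linarith), if_neg (by linarith), if_neg (by linarith),
        if_neg (by linarith), if_neg (by linarith)] at hc
      split_ifs at hc with h7
      · exact h7
      · exact absurd hc (by decide)
    · refine (good_three grpD).mono ?_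
      rintro y ⟨⟨hy0, hy1⟩, hc⟩
      have h6 := cp_small (Or.inr hc)
      refine ⟨hy0, h6, ?_⟩
      unfold cp at hc
      rw [if_neg (by linarith), if_neg (by linarith), if_neg (by linarith),
        if_neg (by linarith), if_neg (by linarith)] at hc
      split_ifs at hc with h7
      · exact absurd hc (by decide)
      · exact not_lt.1 h7
  have h2 := good_comb (by norm_num) cp AA h
  have e1 : ∑ c : Fin 7, (![1, 1, 1, 1, 1, 3, 3] : Fin 7 → ℕ) c = 11 := by decide
  have e2 : ∑ c : Fin 7, (![1, 1, 1, 1, 1, 4, 4] : Fin 7 → ℝ) c = 13 := by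
    simp [Fin.sum_univ_succ]; norm_num
  rw [e1, e2] at h2
  exact h2

lemma sum_W_opt (L : List ℝ) (hL : Val L) : (L.map W).sum ≤ T 0 * (opt L : ℝ) := by
  obtain ⟨f, hf⟩ := opt_mem L hL
  have e1 : (L.map W).sum = ∑ i : Fin L.length, W (L.get i) := by
    calc (L.map W).sum = ((List.ofFn L.get).map W).sum := by rw [List.ofFn_get]
      _ = ∑ i : Fin L.length, W (L.get i) := by
        rw [List.map_ofFn, List.sum_ofFn]; rfl
  rw [e1]
  have e2 : ∑ i : Fin L.length, W (L.get i)
      = ∑ j : Fin (opt L), ∑ i ∈ (Finset.univ : Finset (Fin L.length)).filter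
        (fun i : Fin L.length => f i = j), W (L.get i) := by
    rw [Finset.sum_fiberwise]
  rw [e2]
  have e3 : ∑ j : Fin (opt L), ∑ i ∈ (Finset.univ : Finset (Fin L.length)).filter
        (fun i : Fin L.length => f i = j), W (L.get i) ≤ ∑ _j : Fin (opt L), T 0 := by
    apply Finset.sum_le_sum
    intro j _
    apply sum_W_le (fun i : Fin L.length => L.get i)
    · intro i _
      exact (hL _ (List.get_mem L i)).1
    · exact hf j
  refine le_trans e3 ?_
  rw [Finset.sum_const, Finset.card_univ, Fintype.card_fin, nsmul_eq_mul]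
  linarith

lemma T_zero_eq (t : ℕ → ℕ) (h0 : t 0 = 2) (hs : ∀ i : ℕ, t (i + 1) = t i * (t i - 1) + 1) :
    ∑' i : ℕ, 1 / ((t i : ℝ) - 1) = T 0 := by
  have h : ∀ i, t i = m i + 1 := by
    intro i
    induction i with
    | zero => rw [h0]; simp [m]
    | succ i ih => rw [hs, ih, m_succ]; simp; ring
  unfold T
  apply tsum_congr
  intro i
  rw [h i]
  push_cast
  simp

end Pool.Agent.Work.MP_70d3c3_lc
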