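import Pool.Agent.Work.MP_70d3c3_lc.Group

set_option autoImplicit false

namespace Pool.Agent.Work.MP_70d3c3_lc

/-- critical small items -/
def SC (v : ℝ) : Prop := 0 < v ∧ v ≤ 1 / 6 ∧ 1 / ((m (lev v) : ℝ) + 1) < v

/-- non-critical small items -/
def SD (v : ℝ) : Prop := 0 < v ∧ v ≤ 1 / 6 ∧ v ≤ 1 / ((m (lev v) : ℝ) + 1)

lemma sum_map_const {B : List ℝ} {f : ℝ → ℝ} {c : ℝ} (h : ∀ v ∈ B, f v = c) :
    (B.map f).sum = (B.length : ℝ) * c := by
  induction B with
  | nil => simp
  | cons x B ih =>
    have h1 := h x (by simp)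
    have h2 := ih (fun v hv => h v (by simp [hv]))
    rw [List.map_cons, List.sum_cons, List.length_cons, h1, h2]
    push_cast; ring

lemma sum_map_mul {B : List ℝ} {f : ℝ → ℝ} {c : ℝ} (h : ∀ v ∈ B, f v = v / c) :
    (B.map f).sum = B.sum / c := by
  induction B with
  | nil => simp
  | cons x B ih =>
    have h1 := h x (by simp)
    have h2 := ih (fun v hv => h v (by simp [hv]))
    rw [List.map_cons, List.sum_cons, List.sum_cons, h1, h2]
    ring

lemma grpC : Grp SC m where
  pos := fun v h => h.1
  le := fun v h => h.2.1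
  N1 := fun j => le_rfl
  N2 := fun j => Nat.le_succ _
  top := fun v j _ _ h => h
  full := by
    intro B j hB hn
    refine le_trans (min_le_right _ _) ?_
    have h1 : ∀ v ∈ B, g v = 1 / (m (j + 1) : ℝ) := by
      intro v hv
      obtain ⟨hS, h1, h2⟩ := hB v hv
      have hl := lev_eq h1 h2
      have h3 := hS.2.2
      rw [hl] at h3
      exact g_crit h3 h2
    rw [sum_map_const h1, mR_succ]
    have hp := mR_pos j
    have h2 : (m j : ℝ) ≤ B.length := by exact_mod_cast hn
    rw [mul_one_div, div_le_div_iff₀ (by linarith) (by positivity)]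
    nlinarith

lemma grpD : Grp SD (fun j => m j + 1) where
  pos := fun v h => h.1
  le := fun v h => h.2.1
  N1 := fun j => Nat.le_succ _
  N2 := fun j => le_rfl
  top := by
    intro v j hS h1 h2
    have h3 := hS.2.2
    rw [lev_eq h1 h2] at h3
    push_cast
    exact h3
  full := by
    intro B j hB hn
    refine le_trans (min_le_left _ _) ?_
    have h1 : ∀ v ∈ B, g v = v / ((m j : ℝ) + 1) := by
      intro v hv
      obtain ⟨hS, h1, h2⟩ := hB v hv
      have hl := lev_eq h1 h2
      have h3 := hS.2.2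
      unfold g
      rw [if_neg (not_lt.2 h3), hl]
    rw [sum_map_mul h1]
    push_cast
    exact le_rfl

end Pool.Agent.Work.MP_70d3c3_lc
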