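import Pool.Agent.Work.MP_70d3c3_lc.Three
import Pool.Agent.Work.MP_70d3c3_lc.Inst

set_option autoImplicit false

namespace Pool.Agent.Work.MP_70d3c3_lc

variable {S : ℝ → Prop} {N : ℕ → ℕ}

/-! the three bin rule -/

lemma labels_later (p q : List ℝ) :
    (run p).nxt ≤ (run (p ++ q)).nxt ∧
    ∀ l, (l = (run (p ++ q)).l1 ∨ l = (run (p ++ q)).l2 ∨ l = (run (p ++ q)).lP) →
      (l = (run p).l1 ∨ l = (run p).l2 ∨ l = (run p).lP) ∨ (run p).nxt ≤ l := by
  induction q using List.reverseRecOn with
  | nil =>
    rw [List.append_nil]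
    exact ⟨le_rfl, fun l hl => Or.inl hl⟩
  | append_singleton q x ih =>
    obtain ⟨h1, h2⟩ := ih
    rw [← List.append_assoc, run_append]
    set s := run (p ++ q) with hs
    unfold step
    split_ifs
    · exact ⟨h1, h2⟩
    · refine ⟨h1, fun l hl => h2 l ?_⟩
      rcases hl with h | h | h
      · exact Or.inr (Or.inl h)
      · exact Or.inl h
      · exact Or.inr (Or.inr h)
    · exact ⟨h1, h2⟩
    · exact ⟨h1, h2⟩
    · refine ⟨Nat.le_succ_of_le h1, fun l hl => ?_⟩
      rcases hl with h | h | h
      · exact h2 l (Or.inl h)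
      · exact h2 l (Or.inr (Or.inl h))
      · right; rw [h]; exact h1
    · refine ⟨Nat.le_succ_of_le h1, fun l hl => ?_⟩
      rcases hl with h | h | h
      · exact h2 l (Or.inr (Or.inl h))
      · exact h2 l (Or.inr (Or.inr h))
      · right; rw [h]; exact h1

lemma choose_cases (s : St) (x : ℝ) :
    choose s x = s.l1 ∨ choose s x = s.l2 ∨ choose s x = s.lP ∨ choose s x = s.nxt := by
  unfold choose
  split_ifs <;> simp

theorem good_three (hG : Grp S N) : Good S W 3 4 rule where
  load_le := fun L hL b => (lab_run (fun v hv => by have := hG.le v hv; linarith) L hL).le b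
  open_le := by
    intro p hp
    have hlab := lab_run (fun v hv => by have := hG.le v hv; linarith) p hp
    refine ⟨{(run p).l1, (run p).l2, (run p).lP}, Finset.card_le_three, ?_⟩
    intro b hb q x _ _ hA
    have hbn := hlab.us b hb
    obtain ⟨h1, h2⟩ := labels_later p q
    have h3 : b = (run (p ++ q)).l1 ∨ b = (run (p ++ q)).l2 ∨ b = (run (p ++ q)).lP ∨
        b = (run (p ++ q)).nxt := by
      have := choose_cases (run (p ++ q)) x
      unfold rule at hA
      rw [hA] at this
      exact this
    have h4 : b = (run (p ++ q)).l1 ∨ b = (run (p ++ q)).l2 ∨ b = (run (p ++ q)).lP := by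
      rcases h3 with h | h | h | h
      · exact Or.inl h
      · exact Or.inr (Or.inl h)
      · exact Or.inr (Or.inr h)
      · omega
    rcases h2 b h4 with h | h
    · simp only [Finset.mem_insert, Finset.mem_singleton]; exact h
    · omega
  count_le := by
    intro L hL
    have hlab := lab_run (fun v hv => by have := hG.le v hv; linarith) L hL
    have hinv := inv_run hG L hL
    have h1 : (used rule L).card ≤ (run L).nxt := by
      have : used rule L ⊆ Finset.range (run L).nxt := by
        intro b hb
        exact Finset.mem_range.2 (hlab.us b hb)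
      simpa using Finset.card_le_card this
    have h1R : ((used rule L).card : ℝ) ≤ (run L).nxt := by exact_mod_cast h1
    have a1 : 0 ≤ (run L).A1.sum :=
      sum_nonneg_of (fun v hv => (hG.pos v (hinv.i1 v hv)).le)
    have a2 : 0 ≤ (run L).A2.sum :=
      sum_nonneg_of (fun v hv => (hG.pos v (hinv.i2 v hv)).le)
    have aP : 0 ≤ (run L).P.sum :=
      sum_nonneg_of (fun v hv => (hG.pos v (hinv.iP v hv).1).le)
    have gP : 0 ≤ ((run L).P.map g).sum :=
      sumg_nonneg (fun v hv => (hG.pos v (hinv.iP v hv).1).le)
    have g2 : 0 ≤ ((run L).A2.map g).sum :=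
      sumg_nonneg (fun v hv => (hG.pos v (hinv.i2 v hv)).le)
    have hc : -(1 / 2) ≤ cred L (run L) := by
      rcases hinv.pot with h | ⟨u, B0, B1, hB, h0, _, h2, _, h4⟩
      · have := hinv.s1; linarith
      · obtain ⟨v0, hv0⟩ := exists_mem_of_sum h2
        have hu : u < 1 / 6 := lt_of_lt_of_le (h0 v0 hv0)
          (hG.le v0 (hinv.i2 v0 (by rw [hB]; exact List.mem_append.2 (Or.inr hv0))))
        refine le_trans (le_min ?_ ?_) h4
        · have := hinv.s1; linarith
        · linarith
    unfold cred at hc
    rw [sum_map_W (run L).P] at hc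
    linarith

/-! harmonic classes -/

/-- the rule for a harmonic class: put `c` consecutive items in each bin -/
def hrule (c : ℕ) (p : List ℝ) (_ : ℝ) : ℕ := p.length / c

lemma hrule_load {c : ℕ} (hc : 0 < c) : ∀ L : List ℝ, (∀ y ∈ L, y ≤ 1 / (c : ℝ)) → ∀ b,
    load (hrule c) L b ≤ ((min (L.length - b * c) c : ℕ) : ℝ) / c := by
  intro L
  have hcR : (0 : ℝ) < c := by exact_mod_cast hc
  induction L using List.reverseRecOn with
  | nil => intro _ b; simp
  | append_singleton L x ih =>
    intro hL b
    have ih' := ih (fun y hy => hL y (by simp [hy])) b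
    have hx : x ≤ 1 / (c : ℝ) := hL x (by simp)
    rw [load_append]
    split_ifs with h
    · have h1 : L.length - b * c = L.length % c := by
        unfold hrule at h
        have := Nat.div_add_mod L.length c
        rw [h, mul_comm] at this
        omega
      have h2 : L.length % c < c := Nat.mod_lt _ hc
      have h3 : (L ++ [x]).length - b * c = L.length % c + 1 := by
        rw [List.length_append, List.length_singleton]
        unfold hrule at h
        have := Nat.div_add_mod L.length c
        rw [h, mul_comm] at this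
        omega
      rw [h3, min_eq_left (by omega)]
      rw [h1, min_eq_left h2.le] at ih'
      push_cast
      rw [add_div]
      linarith
    · rw [add_zero]
      refine le_trans ih' ?_
      apply div_le_div_of_nonneg_right _ hcR.le
      have : min (L.length - b * c) c ≤ min ((L ++ [x]).length - b * c) c := by
        apply min_le_min _ le_rfl
        rw [List.length_append]
        omega
      exact_mod_cast this

lemma hrule_used {c : ℕ} (hc : 0 < c) (L : List ℝ) : ∀ b ∈ used (hrule c) L, b * c < L.length := by
  intro b hb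
  rw [mem_used] at hb
  obtain ⟨⟨i, hi⟩, h⟩ := hb
  simp only [hrule, List.length_take] at h
  rw [min_eq_left hi.le] at h
  have := Nat.div_mul_le_self i c
  rw [h] at this
  omega

theorem good_class {c : ℕ} (hc : 0 < c) :
    Good (fun y => 1 / ((c : ℝ) + 1) < y ∧ y ≤ 1 / (c : ℝ)) W 1 1 (hrule c) where
  load_le := by
    intro L hL b
    have hcR : (0 : ℝ) < c := by exact_mod_cast hc
    refine le_trans (hrule_load hc L (fun y hy => (hL y hy).2) b) ?_
    rw [div_le_one hcR]
    exact_mod_cast min_le_right _ _
  open_le := by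
    intro p _
    refine ⟨{p.length / c}, by simp, ?_⟩
    intro b hb q x _ _ hA
    rw [Finset.mem_singleton]
    have h1 := hrule_used hc p b hb
    unfold hrule at hA
    rw [List.length_append] at hA
    have h2 : p.length / c ≤ b := by
      rw [← hA]; exact Nat.div_le_div_right (by omega)
    have h3 : b ≤ p.length / c := by
      rw [Nat.le_div_iff_mul_le hc]; omega
    omega
  count_le := by
    intro L hL
    have hcR : (0 : ℝ) < c := by exact_mod_cast hc
    have h1 : used (hrule c) L ⊆ Finset.range (L.length / c + 1) := by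
      intro b hb
      rw [Finset.mem_range, Nat.lt_succ_iff, Nat.le_div_iff_mul_le hc]
      exact (hrule_used hc L b hb).le
    have h2 : ((used (hrule c) L).card : ℝ) ≤ ((L.length / c + 1 : ℕ) : ℝ) := by
      exact_mod_cast (by simpa using Finset.card_le_card h1)
    have h3 : ((L.length / c + 1 : ℕ) : ℝ) ≤ (L.length : ℝ) / c + 1 := by
      push_cast
      have := @Nat.cast_div_le ℝ _ _ _ L.length c
      linarith
    have h4 : (L.length : ℝ) * (1 / (c : ℝ)) ≤ (L.map W).sum := by
      clear h1 h2 h3
      induction L with
      | nil => simp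
      | cons x L ih =>
        have e1 := W_class hc (hL x (by simp)).1 (hL x (by simp)).2
        have e2 := ih (fun y hy => hL y (by simp [hy]))
        rw [List.length_cons, List.map_cons, List.sum_cons]
        push_cast
        linarith
    rw [mul_one_div] at h4
    linarith

/-! combination of finitely many rules -/

section combine

variable {q : ℕ}

/-- the combined rule -/
def comb (cp : ℝ → Fin q) (A : Fin q → List ℝ → ℝ → ℕ) (p : List ℝ) (x : ℝ) : ℕ :=
  q * (A (cp x) (p.filter (fun y => cp y = cp x)) x) + (cp x : ℕ)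

lemma comb_eq_iff (cp : ℝ → Fin q) (A : Fin q → List ℝ → ℝ → ℕ) (p : List ℝ) (x : ℝ)
    (c : Fin q) (n : ℕ) :
    comb cp A p x = q * n + (c : ℕ) ↔
      cp x = c ∧ A c (p.filter (fun y => cp y = c)) x = n := by
  unfold comb
  constructor
  · intro h
    have h1 : ((cp x : Fin q) : ℕ) = (c : ℕ) := by
      have e1 := congrArg (fun t => t % q) h
      simp only [Nat.mul_add_mod] at e1
      rwa [Nat.mod_eq_of_lt (cp x).2, Nat.mod_eq_of_lt c.2] at e1
    have h2 : cp x = c := Fin.ext h1
    refine ⟨h2, ?_⟩
    rw [h2] at h
    have hq : 0 < q := lt_of_le_of_lt (Nat.zero_le _) c.2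
    have h3 : q * (A c (p.filter (fun y => cp y = c)) x) = q * n := by omega
    exact Nat.eq_of_mul_eq_mul_left hq h3
  · rintro ⟨h1, h2⟩
    rw [h1, h2]

lemma comb_load (cp : ℝ → Fin q) (A : Fin q → List ℝ → ℝ → ℕ) (c : Fin q) (n : ℕ) :
    ∀ L : List ℝ, load (comb cp A) L (q * n + (c : ℕ))
      = load (A c) (L.filter (fun y => cp y = c)) n := by
  intro L
  induction L using List.reverseRecOn with
  | nil => simp
  | append_singleton L x ih =>
    rw [load_append, ih, List.filter_append]
    by_cases h : cp x = c
    · have h1 : [x].filter (fun y => cp y = c) = [x] := by simp [h]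
      rw [h1, load_append]
      congr 1
      by_cases h2 : A c (L.filter (fun y => cp y = c)) x = n
      · rw [if_pos h2, if_pos ((comb_eq_iff cp A L x c n).2 ⟨h, h2⟩)]
      · rw [if_neg h2, if_neg (fun h3 => h2 ((comb_eq_iff cp A L x c n).1 h3).2)]
    · have h1 : [x].filter (fun y => cp y = c) = [] := by simp [h]
      rw [h1, List.append_nil, if_neg (fun h3 => h ((comb_eq_iff cp A L x c n).1 h3).1), add_zero]

lemma comb_used (cp : ℝ → Fin q) (A : Fin q → List ℝ → ℝ → ℕ) (c : Fin q) (n : ℕ) :
    ∀ L : List ℝ, q * n + (c : ℕ) ∈ used (comb cp A) L →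
      n ∈ used (A c) (L.filter (fun y => cp y = c)) := by
  intro L
  induction L using List.reverseRecOn with
  | nil => simp
  | append_singleton L x ih =>
    intro hb
    rw [used_append, Finset.mem_insert] at hb
    rw [List.filter_append]
    by_cases h : cp x = c
    · have h1 : [x].filter (fun y => cp y = c) = [x] := by simp [h]
      rw [h1, used_append, Finset.mem_insert]
      rcases hb with hb | hb
      · left
        exact ((comb_eq_iff cp A L x c n).1 hb.symm).2.symm
      · right
        exact ih hb
    · have h1 : [x].filter (fun y => cp y = c) = [] := by simp [h]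
      rw [h1, List.append_nil]
      rcases hb with hb | hb
      · exact absurd ((comb_eq_iff cp A L x c n).1 hb.symm).1 h
      · exact ih hb

lemma sum_filter_map (cp : ℝ → Fin q) (w : ℝ → ℝ) (L : List ℝ) :
    ∑ c : Fin q, ((L.filter (fun y => cp y = c)).map w).sum = (L.map w).sum := by
  induction L with
  | nil => simp
  | cons x L ih =>
    rw [List.map_cons, List.sum_cons, ← ih]
    have : ∀ c : Fin q, (((x :: L).filter (fun y => cp y = c)).map w).sum
        = (if cp x = c then w x else 0) + ((L.filter (fun y => cp y = c)).map w).sum := by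
      intro c
      by_cases h : cp x = c
      · rw [if_pos h, List.filter_cons_of_pos (by simp [h]), List.map_cons, List.sum_cons]
      · rw [if_neg h, List.filter_cons_of_neg (by simp [h]), zero_add]
    rw [Finset.sum_congr rfl (fun c _ => this c), Finset.sum_add_distrib]
    congr 1
    simp

theorem good_comb (hq : 0 < q) {S0 : ℝ → Prop} {w : ℝ → ℝ} {k : Fin q → ℕ} {C : Fin q → ℝ}
    (cp : ℝ → Fin q) (A : Fin q → List ℝ → ℝ → ℕ)
    (hA : ∀ c, Good (fun y => S0 y ∧ cp y = c) w (k c) (C c) (A c)) :
    Good S0 w (∑ c, k c) (∑ c, C c) (comb cp A) where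
  load_le := by
    intro L hL b
    have hb : b = q * (b / q) + ((⟨b % q, Nat.mod_lt _ hq⟩ : Fin q) : ℕ) := by
      simp [Nat.div_add_mod]
    rw [hb, comb_load]
    apply (hA _).load_le
    intro y hy
    rw [List.mem_filter] at hy
    exact ⟨hL y hy.1, by simpa using hy.2⟩
  open_le := by
    intro p hp
    have h : ∀ c : Fin q, ∃ T : Finset ℕ, T.card ≤ k c ∧
        ∀ b ∈ used (A c) (p.filter (fun y => cp y = c)), ∀ (r : List ℝ) (x : ℝ),
          (∀ y ∈ r, S0 y ∧ cp y = c) → (S0 x ∧ cp x = c) →
          A c (p.filter (fun y => cp y = c) ++ r) x = b → b ∈ T := by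
      intro c
      apply (hA c).open_le
      intro y hy
      rw [List.mem_filter] at hy
      exact ⟨hp y hy.1, by simpa using hy.2⟩
    choose T hT1 hT2 using h
    refine ⟨Finset.univ.biUnion (fun c => (T c).image (fun n => q * n + (c : ℕ))), ?_, ?_⟩
    · refine le_trans Finset.card_biUnion_le ?_
      apply Finset.sum_le_sum
      intro c _
      exact le_trans Finset.card_image_le (hT1 c)
    · intro b hb r x hr hx hAb
      set c : Fin q := ⟨b % q, Nat.mod_lt _ hq⟩ with hc
      have hbe : b = q * (b / q) + (c : ℕ) := by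
        simp [hc, Nat.div_add_mod]
      rw [Finset.mem_biUnion]
      refine ⟨c, Finset.mem_univ _, ?_⟩
      rw [Finset.mem_image]
      refine ⟨b / q, ?_, hbe.symm⟩
      rw [hbe] at hb hAb
      obtain ⟨e1, e2⟩ := (comb_eq_iff cp A (p ++ r) x c (b / q)).1 (by
        rw [hAb])
      rw [List.filter_append] at e2
      refine hT2 c (b / q) ?_ (r.filter (fun y => cp y = c)) x ?_ ⟨hx, e1⟩ e2
      · exact comb_used cp A c (b / q) p hb
      · intro y hy
        rw [List.mem_filter] at hy
        exact ⟨hr y hy.1, by simpa using hy.2⟩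
  count_le := by
    intro L hL
    have h1 : used (comb cp A) L ⊆ Finset.univ.biUnion
        (fun c : Fin q => (used (A c) (L.filter (fun y => cp y = c))).image
          (fun n => q * n + (c : ℕ))) := by
      intro b hb
      set c : Fin q := ⟨b % q, Nat.mod_lt _ hq⟩ with hc
      have hbe : b = q * (b / q) + (c : ℕ) := by
        simp [hc, Nat.div_add_mod]
      rw [Finset.mem_biUnion]
      refine ⟨c, Finset.mem_univ _, ?_⟩
      rw [Finset.mem_image]
      refine ⟨b / q, ?_, hbe.symm⟩
      rw [hbe] at hb
      exact comb_used cp A c (b / q) L hb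
    have h2 : (used (comb cp A) L).card ≤
        ∑ c : Fin q, (used (A c) (L.filter (fun y => cp y = c))).card := by
      refine le_trans (Finset.card_le_card h1) (le_trans Finset.card_biUnion_le ?_)
      apply Finset.sum_le_sum
      intro c _
      exact Finset.card_image_le
    have h3 : ((used (comb cp A) L).card : ℝ) ≤
        ∑ c : Fin q, ((used (A c) (L.filter (fun y => cp y = c))).card : ℝ) := by
      exact_mod_cast h2
    refine le_trans h3 ?_
    rw [← sum_filter_map cp w L, ← Finset.sum_add_distrib]
    apply Finset.sum_le_sum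
    intro c _
    apply (hA c).count_le
    intro y hy
    rw [List.mem_filter] at hy
    exact ⟨hL y hy.1, by simpa using hy.2⟩

end combine

end Pool.Agent.Work.MP_70d3c3_lc
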