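import Pool.Agent.Work.MP_70d3c3_lc.Seq

set_option autoImplicit false

namespace Pool.Agent.Work.MP_70d3c3_lc

/-! list estimates -/

lemma sum_ge_of {B : List ℝ} {a : ℝ} (h : ∀ v ∈ B, a ≤ v) : (B.length : ℝ) * a ≤ B.sum := by
  induction B with
  | nil => simp
  | cons x B ih =>
    have h1 := h x (by simp)
    have h2 := ih (fun v hv => h v (by simp [hv]))
    rw [List.length_cons, List.sum_cons]
    push_cast
    linarith

lemma sum_le_of {B : List ℝ} {a : ℝ} (h : ∀ v ∈ B, v ≤ a) : B.sum ≤ (B.length : ℝ) * a := by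
  induction B with
  | nil => simp
  | cons x B ih =>
    have h1 := h x (by simp)
    have h2 := ih (fun v hv => h v (by simp [hv]))
    rw [List.length_cons, List.sum_cons]
    push_cast
    linarith

lemma sum_map_ge {B : List ℝ} {f : ℝ → ℝ} {c : ℝ} (h : ∀ v ∈ B, c * v ≤ f v) :
    c * B.sum ≤ (B.map f).sum := by
  induction B with
  | nil => simp
  | cons x B ih =>
    have h1 := h x (by simp)
    have h2 := ih (fun v hv => h v (by simp [hv]))
    rw [List.map_cons, List.sum_cons, List.sum_cons]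
    linarith

lemma sum_map_ge' {B : List ℝ} {f : ℝ → ℝ} {c : ℝ} (h : ∀ v ∈ B, c * v ≤ f v)
    {z : ℝ} (hz : z ∈ B) : c * B.sum + (f z - c * z) ≤ (B.map f).sum := by
  induction B with
  | nil => simp at hz
  | cons x B ih =>
    have h1 := h x (by simp)
    have h2 : ∀ v ∈ B, c * v ≤ f v := fun v hv => h v (by simp [hv])
    rw [List.map_cons, List.sum_cons, List.sum_cons]
    rcases List.mem_cons.1 hz with e | hz
    · subst e
      have := sum_map_ge h2
      linarith
    · have := ih h2 hz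
      linarith

lemma sum_nonneg_of {B : List ℝ} (h : ∀ v ∈ B, 0 ≤ v) : 0 ≤ B.sum := by
  have := sum_ge_of (a := 0) h
  simpa using this

lemma sumg_nonneg {B : List ℝ} (h : ∀ v ∈ B, 0 ≤ v) : 0 ≤ (B.map g).sum := by
  have := sum_map_ge (B := B) (f := g) (c := 0) (fun v hv => by
    rw [zero_mul]; exact g_nonneg (h v hv))
  simpa using this

/-- the properties of a group of items used in the analysis -/
structure Grp (S : ℝ → Prop) (N : ℕ → ℕ) : Prop where
  pos : ∀ v, S v → 0 < v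
  le : ∀ v, S v → v ≤ 1 / 6
  N1 : ∀ j, m j ≤ N j
  N2 : ∀ j, N j ≤ m j + 1
  top : ∀ v j, S v → 1 / (m (j + 1) : ℝ) < v → v ≤ 1 / (m j : ℝ) → v ≤ 1 / (N j : ℝ)
  full : ∀ (B : List ℝ) (j : ℕ),
    (∀ v ∈ B, S v ∧ 1 / (m (j + 1) : ℝ) < v ∧ v ≤ 1 / (m j : ℝ)) → N j ≤ B.length →
    min (B.sum / (N j : ℝ)) (1 / ((N j : ℝ) + 1)) ≤ (B.map g).sum

variable {S : ℝ → Prop} {N : ℕ → ℕ}

lemma six_le_m {j : ℕ} (hj : 2 ≤ j) : (6 : ℝ) ≤ m j := by
  have : m 2 ≤ m j := m_mono.monotone hj
  rw [m_two] at this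
  exact_mod_cast this

lemma m2R : (m 2 : ℝ) = 6 := by rw [m_two]; norm_num

lemma exists_level {u : ℝ} (hu : 0 < u) (hu6 : u < 1 / 6) :
    ∃ j : ℕ, 2 ≤ j ∧ 1 / (m (j + 1) : ℝ) ≤ u ∧ u < 1 / (m j : ℝ) := by
  classical
  have h : ∃ j : ℕ, 1 / (m (j + 1) : ℝ) ≤ u := by
    obtain ⟨j, hj⟩ := exists_small u hu
    exact ⟨j, hj.le⟩
  have hs := Nat.find_spec h
  have h2 : 2 ≤ Nat.find h := by
    by_contra hc
    have h3 : 1 / (m 2 : ℝ) ≤ 1 / (m (Nat.find h + 1) : ℝ) := inv_anti (by omega)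
    rw [m2R] at h3
    linarith
  refine ⟨Nat.find h, h2, hs, ?_⟩
  have h4 := Nat.find_min h (m := Nat.find h - 1) (by omega)
  rw [not_le, Nat.sub_add_cancel (by omega)] at h4
  exact h4

lemma key (hG : Grp S N) {j : ℕ} (hj : 2 ≤ j) {B0 B1 : List ℝ} {u y μ : ℝ}
    (h0 : ∀ v ∈ B0, S v ∧ u < v) (h1 : ∀ v ∈ B1, S v ∧ y < v)
    (hs : 5 / 6 ≤ B0.sum) (hy1 : 1 / (m (j + 1) : ℝ) ≤ y) (hyu : y ≤ u)
    (hall : ∀ v ∈ B1 ++ B0, v ≤ 1 / (m j : ℝ))
    (hb : 1 - (B1 ++ B0).sum < 1 / (N j : ℝ))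
    (hμy : μ ≤ y) (hμb : μ ≤ 1 - (B1 ++ B0).sum) :
    (u + μ) / 2 ≤ ((B1 ++ B0).map g).sum := by
  have hm6 := six_le_m hj
  have hNm : (m j : ℝ) ≤ N j := by exact_mod_cast hG.N1 j
  have hN6 : (6 : ℝ) ≤ N j := le_trans hm6 hNm
  have hNpos : (0 : ℝ) < N j := by linarith
  have hypos : 0 < y := lt_of_lt_of_le (by have := mR_pos (j + 1); positivity) hy1
  have hitems : ∀ v ∈ B1 ++ B0, S v ∧ 1 / (m (j + 1) : ℝ) < v ∧ v ≤ 1 / (m j : ℝ) := by
    intro v hv
    refine ⟨?_, ?_, hall v hv⟩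
    · rcases List.mem_append.1 hv with h | h
      · exact (h1 v h).1
      · exact (h0 v h).1
    · rcases List.mem_append.1 hv with h | h
      · have := (h1 v h).2; linarith
      · have := (h0 v h).2; linarith
  have htop : ∀ v ∈ B1 ++ B0, v ≤ 1 / (N j : ℝ) := fun v hv =>
    hG.top v j (hitems v hv).1 (hitems v hv).2.1 (hitems v hv).2.2
  -- number of items
  have hn : N j ≤ (B1 ++ B0).length := by
    have e1 := sum_le_of htop
    have e2 : 1 - 1 / (N j : ℝ) < ((B1 ++ B0).length : ℝ) * (1 / (N j : ℝ)) := by linarith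
    have e3 : (N j : ℝ) - 1 < ((B1 ++ B0).length : ℝ) := by
      rw [mul_one_div, lt_div_iff₀ hNpos] at e2
      have : (1 - 1 / (N j : ℝ)) * (N j : ℝ) = (N j : ℝ) - 1 := by field_simp
      linarith
    have e4 : (N j : ℝ) < ((B1 ++ B0).length : ℝ) + 1 := by linarith
    have e5 : N j < (B1 ++ B0).length + 1 := by exact_mod_cast e4
    omega
  have hn0 : ((N j : ℝ) + 1) / 2 ≤ (B0.length : ℝ) := by
    have e1 := sum_le_of (B := B0) (fun v hv => htop v (List.mem_append.2 (Or.inr hv)))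
    have e2 : 5 / 6 ≤ (B0.length : ℝ) * (1 / (N j : ℝ)) := by linarith
    rw [mul_one_div, le_div_iff₀ hNpos] at e2
    linarith
  have hfull := hG.full (B1 ++ B0) j hitems hn
  refine le_trans (le_min ?_ ?_) hfull
  all_goals
    have s0 := sum_ge_of (B := B0) (a := u) (fun v hv => (h0 v hv).2.le)
    have s1 := sum_ge_of (B := B1) (a := y) (fun v hv => (h1 v hv).2.le)
    rw [List.sum_append] at hb hμb
    have hlen : (N j : ℝ) ≤ (B1.length : ℝ) + (B0.length : ℝ) := by
      rw [List.length_append] at hn; exact_mod_cast hn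
  · rw [List.sum_append, le_div_iff₀ hNpos]
    rcases le_total (N j : ℝ) (B0.length : ℝ) with hc | hc
    · have e1 : (N j : ℝ) * u ≤ (B0.length : ℝ) * u := by nlinarith
      have e2 : (0 : ℝ) ≤ B1.sum := sum_nonneg_of (fun v hv => (hG.pos v (h1 v hv).1).le)
      nlinarith
    · have e1 : ((N j : ℝ) - B0.length) * y ≤ (B1.length : ℝ) * y := by nlinarith
      have e2 : 0 ≤ ((B0.length : ℝ) - (N j : ℝ) / 2) * (u - y) := by
        apply mul_nonneg <;> linarith
      nlinarith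
  · rw [le_div_iff₀ (by linarith)]
    rcases le_total (N j : ℝ) (B0.length : ℝ) with hc | hc
    · have e1 : (N j : ℝ) * u ≤ (B0.length : ℝ) * u := by nlinarith
      have e2 : (0 : ℝ) ≤ B1.sum := sum_nonneg_of (fun v hv => (hG.pos v (h1 v hv).1).le)
      have e3 : 0 ≤ ((N j : ℝ) - 1) * (u - μ) := by
        apply mul_nonneg <;> linarith
      nlinarith
    · have e1 : ((N j : ℝ) - B0.length) * y ≤ (B1.length : ℝ) * y := by nlinarith
      have e1' : ((N j : ℝ) - B0.length) * μ ≤ ((N j : ℝ) - B0.length) * y := by nlinarith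
      have e2 : 0 ≤ ((B0.length : ℝ) - ((N j : ℝ) + 1) / 2) * (u - μ) := by
        apply mul_nonneg <;> linarith
      nlinarith

/-- a bin all of whose items have level at most `j` and which contains an item of a smaller
level -/
lemma mixed (hG : Grp S N) {j : ℕ} {B : List ℝ}
    (hB : ∀ v ∈ B, S v ∧ 1 / (m (j + 1) : ℝ) < v) {z : ℝ} (hz : z ∈ B)
    (hzj : 1 / (m j : ℝ) < z) :
    B.sum / ((m j : ℝ) + 1) + 2 / ((m j : ℝ) * ((m j : ℝ) + 1)) ≤ (B.map g).sum := by
  have hz6 := hG.le z (hB z hz).1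
  have hj : 3 ≤ j := by
    by_contra hc
    have : 1 / (m 2 : ℝ) ≤ 1 / (m j : ℝ) := inv_anti (by omega)
    rw [m2R] at this
    linarith
  obtain ⟨i, rfl⟩ : ∃ i, j = i + 1 := ⟨j - 1, by omega⟩
  have hq : (6 : ℝ) ≤ m i := six_le_m (by omega)
  have hp := mR_pos (i + 1)
  have hpe : (m (i + 1) : ℝ) = (m i : ℝ) * ((m i : ℝ) + 1) := mR_succ i
  have hzg := le_g (v := z) (j := i) (by linarith) hzj
  have e := sum_map_ge' (B := B) (f := g) (c := 1 / ((m (i + 1) : ℝ) + 1)) (fun v hv => by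
    have := le_g (v := v) (j := i + 1) (by have := hG.le v (hB v hv).1; linarith) (hB v hv).2
    rw [one_div_mul_eq_div]; exact this) hz
  rw [one_div_mul_eq_div, one_div_mul_eq_div] at e
  have e2 : 2 / ((m (i + 1) : ℝ) * ((m (i + 1) : ℝ) + 1)) ≤ g z - z / ((m (i + 1) : ℝ) + 1) := by
    have e3 : 3 / ((m (i + 1) : ℝ) + 1) ≤ 1 / ((m i : ℝ) + 1) := by
      rw [div_le_div_iff₀ (by linarith) (by linarith), hpe]
      nlinarith
    have e4 : z / ((m i : ℝ) + 1) = z * (1 / ((m i : ℝ) + 1)) := by ring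
    have hzpos : 0 < z := hG.pos z (hB z hz).1
    have e5 : z * (3 / ((m (i + 1) : ℝ) + 1)) ≤ z * (1 / ((m i : ℝ) + 1)) :=
      mul_le_mul_of_nonneg_left e3 hzpos.le
    have e6 : z * (3 / ((m (i + 1) : ℝ) + 1)) - z / ((m (i + 1) : ℝ) + 1)
        = z * (2 / ((m (i + 1) : ℝ) + 1)) := by ring
    have e7 : (1 / (m (i + 1) : ℝ)) * (2 / ((m (i + 1) : ℝ) + 1))
        ≤ z * (2 / ((m (i + 1) : ℝ) + 1)) :=
      mul_le_mul_of_nonneg_right hzj.le (by positivity)
    have e8 : (1 / (m (i + 1) : ℝ)) * (2 / ((m (i + 1) : ℝ) + 1))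
        = 2 / ((m (i + 1) : ℝ) * ((m (i + 1) : ℝ) + 1)) := by
      field_simp
    linarith
  linarith

lemma exists_mem_of_sum {B : List ℝ} (h : 5 / 6 ≤ B.sum) : ∃ v, v ∈ B := by
  rcases B with _ | ⟨x, B⟩
  · simp at h; linarith
  · exact ⟨x, by simp⟩

lemma X2 (hG : Grp S N) {B0 B1 : List ℝ} {u y : ℝ}
    (h0 : ∀ v ∈ B0, S v ∧ u < v) (h1 : ∀ v ∈ B1, S v ∧ y < v)
    (hs : 5 / 6 ≤ B0.sum) (hy : 0 ≤ y) (hyu : y ≤ u)
    (_hb0 : (B1 ++ B0).sum ≤ 1) (hb : 1 - (B1 ++ B0).sum ≤ y) :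
    (u + (1 - (B1 ++ B0).sum)) / 2 ≤ ((B1 ++ B0).map g).sum := by
  have hpos1 : ∀ v ∈ B1, 0 ≤ v := fun v hv => (hG.pos v (h1 v hv).1).le
  have hpos0 : ∀ v ∈ B0, 0 ≤ v := fun v hv => (hG.pos v (h0 v hv).1).le
  have hG1 := sumg_nonneg hpos1
  have hG0 := sumg_nonneg hpos0
  have hsplit : ((B1 ++ B0).map g).sum = (B1.map g).sum + (B0.map g).sum := by
    rw [List.map_append, List.sum_append]
  rcases (le_trans hy hyu).eq_or_lt with hu | hu
  · rw [hsplit]
    linarith
  obtain ⟨v0, hv0⟩ := exists_mem_of_sum hs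
  have hu6 : u < 1 / 6 := lt_of_lt_of_le (h0 v0 hv0).2 (hG.le v0 (h0 v0 hv0).1)
  obtain ⟨j, hj, hu1, hu2⟩ := exists_level hu hu6
  have hm6 := six_le_m hj
  have hmp := mR_pos j
  have hms := mR_succ j
  rcases lt_or_ge y (1 / (m (j + 1) : ℝ)) with hyc | hyc
  · -- case A
    have e := sum_map_ge (B := B0) (f := g) (c := 1 / ((m j : ℝ) + 1)) (fun v hv => by
      have := le_g (v := v) (j := j) (by have := hG.le v (h0 v hv).1; linarith)
        (by have := (h0 v hv).2; linarith)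
      rw [one_div_mul_eq_div]; exact this)
    rw [hsplit]
    have e2 : 1 / ((m j : ℝ) + 1) * (5 / 6) ≤ 1 / ((m j : ℝ) + 1) * B0.sum :=
      mul_le_mul_of_nonneg_left hs (by positivity)
    have e3 : (1 / (m j : ℝ) + 1 / (m (j + 1) : ℝ)) / 2 ≤ 1 / ((m j : ℝ) + 1) * (5 / 6) := by
      rw [hms]
      have : (1 / (m j : ℝ) + 1 / ((m j : ℝ) * ((m j : ℝ) + 1))) / 2
          = ((m j : ℝ) + 2) / (2 * (m j : ℝ)) * (1 / ((m j : ℝ) + 1)) := by
        field_simp; ring
      rw [this, mul_comm]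
      apply mul_le_mul_of_nonneg_left _ (by positivity)
      rw [div_le_div_iff₀ (by positivity) (by norm_num)]
      linarith
    linarith
  · by_cases hmix : ∃ z ∈ B1 ++ B0, 1 / (m j : ℝ) < z
    · obtain ⟨z, hz, hzj⟩ := hmix
      have hB : ∀ v ∈ B1 ++ B0, S v ∧ 1 / (m (j + 1) : ℝ) < v := by
        intro v hv
        rcases List.mem_append.1 hv with h | h
        · exact ⟨(h1 v h).1, by have := (h1 v h).2; linarith⟩
        · exact ⟨(h0 v h).1, by have := (h0 v h).2; linarith⟩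
      refine le_trans ?_ (mixed hG hB hz hzj)
      have e1 : (1 - 1 / (m j : ℝ)) / ((m j : ℝ) + 1) ≤ (B1 ++ B0).sum / ((m j : ℝ) + 1) := by
        apply div_le_div_of_nonneg_right _ (by linarith)
        linarith
      have e2 : (1 - 1 / (m j : ℝ)) / ((m j : ℝ) + 1) + 2 / ((m j : ℝ) * ((m j : ℝ) + 1))
          = 1 / (m j : ℝ) := by
        field_simp; ring
      linarith
    · push Not at hmix
      have hNb : 1 - (B1 ++ B0).sum < 1 / (N j : ℝ) := by
        have hv0m : v0 ≤ 1 / (N j : ℝ) :=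
          hG.top v0 j (h0 v0 hv0).1 (by have := (h0 v0 hv0).2; linarith)
            (hmix v0 (List.mem_append.2 (Or.inr hv0)))
        have := (h0 v0 hv0).2
        linarith
      exact key hG hj h0 h1 hs hyc hyu hmix hNb hb le_rfl

lemma X3 (hG : Grp S N) {B0 B1 P : List ℝ} {u y : ℝ}
    (h0 : ∀ v ∈ B0, S v ∧ u < v) (h1 : ∀ v ∈ B1, S v ∧ y < v)
    (hs : 5 / 6 ≤ B0.sum) (hy : 0 ≤ y) (hyu : y ≤ u)
    (hb : y ≤ 1 - (B1 ++ B0).sum)
    (hP : ∀ v ∈ P, S v ∧ 1 - (B1 ++ B0).sum < v) (hPs : 5 / 6 ≤ P.sum) :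
    y + u / 2 ≤ ((B1 ++ B0).map g).sum + (1 - (B1 ++ B0).sum) / 2 ∨
    y + (u + (1 - (B1 ++ B0).sum)) / 2 ≤ ((B1 ++ B0).map g).sum + (P.map g).sum := by
  have hpos1 : ∀ v ∈ B1, 0 ≤ v := fun v hv => (hG.pos v (h1 v hv).1).le
  have hpos0 : ∀ v ∈ B0, 0 ≤ v := fun v hv => (hG.pos v (h0 v hv).1).le
  have hG1 := sumg_nonneg hpos1
  have hG0 := sumg_nonneg hpos0
  have hsplit : ((B1 ++ B0).map g).sum = (B1.map g).sum + (B0.map g).sum := by
    rw [List.map_append, List.sum_append]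
  have hGB : 0 ≤ ((B1 ++ B0).map g).sum := by
    rw [hsplit]; linarith
  rcases (le_trans hy hyu).eq_or_lt with hu | hu
  · left
    linarith
  obtain ⟨v0, hv0⟩ := exists_mem_of_sum hs
  have hu6 : u < 1 / 6 := lt_of_lt_of_le (h0 v0 hv0).2 (hG.le v0 (h0 v0 hv0).1)
  obtain ⟨j, hj, hu1, hu2⟩ := exists_level hu hu6
  have hm6 := six_le_m hj
  have hmp := mR_pos j
  have hms := mR_succ j
  rcases lt_or_ge y (1 / (m (j + 1) : ℝ)) with hyc | hyc
  · -- case A
    left
    have e := sum_map_ge (B := B0) (f := g) (c := 1 / ((m j : ℝ) + 1)) (fun v hv => by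
      have := le_g (v := v) (j := j) (by have := hG.le v (h0 v hv).1; linarith)
        (by have := (h0 v hv).2; linarith)
      rw [one_div_mul_eq_div]; exact this)
    rw [hsplit]
    have e2 : 1 / ((m j : ℝ) + 1) * (5 / 6) ≤ 1 / ((m j : ℝ) + 1) * B0.sum :=
      mul_le_mul_of_nonneg_left hs (by positivity)
    have e3 : 1 / (m (j + 1) : ℝ) + (1 / (m j : ℝ)) / 2 ≤ 1 / ((m j : ℝ) + 1) * (5 / 6) := by
      rw [hms]
      have : 1 / ((m j : ℝ) * ((m j : ℝ) + 1)) + (1 / (m j : ℝ)) / 2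
          = ((m j : ℝ) + 3) / (2 * (m j : ℝ)) * (1 / ((m j : ℝ) + 1)) := by
        field_simp; ring
      rw [this, mul_comm]
      apply mul_le_mul_of_nonneg_left _ (by positivity)
      rw [div_le_div_iff₀ (by positivity) (by norm_num)]
      linarith
    linarith
  · by_cases hmix : ∃ z ∈ B1 ++ B0, 1 / (m j : ℝ) < z
    · left
      obtain ⟨z, hz, hzj⟩ := hmix
      have hB : ∀ v ∈ B1 ++ B0, S v ∧ 1 / (m (j + 1) : ℝ) < v := by
        intro v hv
        rcases List.mem_append.1 hv with h | h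
        · exact ⟨(h1 v h).1, by have := (h1 v h).2; linarith⟩
        · exact ⟨(h0 v h).1, by have := (h0 v h).2; linarith⟩
      have hmx := mixed hG hB hz hzj
      set b := 1 - (B1 ++ B0).sum with hbdef
      have hsum : (B1 ++ B0).sum = 1 - b := by rw [hbdef]; ring
      rw [hsum] at hmx
      -- increasing in b
      have e1 : (1 - y) / ((m j : ℝ) + 1) + y / 2 ≤ (1 - b) / ((m j : ℝ) + 1) + b / 2 := by
        have : (1 - b) / ((m j : ℝ) + 1) + b / 2 - ((1 - y) / ((m j : ℝ) + 1) + y / 2)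
            = (b - y) * (1 / 2 - 1 / ((m j : ℝ) + 1)) := by ring
        have h3 : 0 ≤ (b - y) * (1 / 2 - 1 / ((m j : ℝ) + 1)) := by
          apply mul_nonneg (by linarith)
          have : 1 / ((m j : ℝ) + 1) ≤ 1 / 2 := by
            apply one_div_le_one_div_of_le (by norm_num); linarith
          linarith
        linarith
      have e2 : (1 - 1 / (m j : ℝ)) / ((m j : ℝ) + 1) ≤ (1 - y) / ((m j : ℝ) + 1) := by
        apply div_le_div_of_nonneg_right _ (by linarith)
        linarith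
      have e3 : (1 - 1 / (m j : ℝ)) / ((m j : ℝ) + 1) + 2 / ((m j : ℝ) * ((m j : ℝ) + 1))
          = 1 / (m j : ℝ) := by
        field_simp; ring
      linarith
    · push Not at hmix
      have hNm : (m j : ℝ) ≤ N j := by exact_mod_cast hG.N1 j
      have hNm2 : (N j : ℝ) ≤ (m j : ℝ) + 1 := by exact_mod_cast hG.N2 j
      have hN6 : (6 : ℝ) ≤ N j := le_trans hm6 hNm
      have hNpos : (0 : ℝ) < N j := by linarith
      have huN : u < 1 / (N j : ℝ) := by
        have hv0m : v0 ≤ 1 / (N j : ℝ) :=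
          hG.top v0 j (h0 v0 hv0).1 (by have := (h0 v0 hv0).2; linarith)
            (hmix v0 (List.mem_append.2 (Or.inr hv0)))
        have := (h0 v0 hv0).2
        linarith
      rcases lt_or_ge (1 - (B1 ++ B0).sum) (1 / (N j : ℝ)) with hbN | hbN
      · left
        have := key hG hj h0 h1 hs hyc hyu hmix hbN le_rfl hb
        linarith
      · set b := 1 - (B1 ++ B0).sum with hbdef
        have hsum : (B1 ++ B0).sum = 1 - b := by rw [hbdef]; ring
        rcases lt_or_ge b (2 / (N j : ℝ)) with hb2 | hb2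
        · right
          obtain ⟨w, hw⟩ := exists_mem_of_sum hPs
          have hPm : ∀ v ∈ P, 1 / (m j : ℝ) < v := by
            intro v hv
            by_contra hc
            rw [not_lt] at hc
            have hv1 : 1 / (m (j + 1) : ℝ) < v := by
              have h3 : 1 / (m (j + 1) : ℝ) ≤ 1 / (N j : ℝ) := by
                apply one_div_le_one_div_of_le hNpos
                rw [hms]; nlinarith
              have := (hP v hv).2
              linarith
            have := hG.top v j (hP v hv).1 hv1 hc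
            have := (hP v hv).2
            linarith
          have hj3 : 3 ≤ j := by
            by_contra hc
            have h3 : 1 / (m 2 : ℝ) ≤ 1 / (m j : ℝ) := inv_anti (by omega)
            rw [m2R] at h3
            have := hPm w hw
            have := hG.le w (hP w hw).1
            linarith
          obtain ⟨i, rfl⟩ : ∃ i, j = i + 1 := ⟨j - 1, by omega⟩
          have hq : (6 : ℝ) ≤ m i := six_le_m (by omega)
          have hpe : (m (i + 1) : ℝ) = (m i : ℝ) * ((m i : ℝ) + 1) := mR_succ i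
          have e := sum_map_ge (B := P) (f := g) (c := 1 / ((m i : ℝ) + 1)) (fun v hv => by
            have := le_g (v := v) (j := i) (by have := hG.le v (hP v hv).1; linarith)
              (hPm v hv)
            rw [one_div_mul_eq_div]; exact this)
          have e2 : 1 / ((m i : ℝ) + 1) * (5 / 6) ≤ 1 / ((m i : ℝ) + 1) * P.sum :=
            mul_le_mul_of_nonneg_left hPs (by positivity)
          have e3 : (5 / 2) / (m (i + 1) : ℝ) ≤ 1 / ((m i : ℝ) + 1) * (5 / 6) := by
            rw [hpe, one_div_mul_eq_div, div_le_div_iff₀ (by positivity) (by positivity)]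
            nlinarith
          have e4 : 1 / (N (i + 1) : ℝ) ≤ 1 / (m (i + 1) : ℝ) :=
            one_div_le_one_div_of_le hmp hNm
          have e5 : (5 / 2) / (m (i + 1) : ℝ) = 5 / 2 * (1 / (m (i + 1) : ℝ)) := by ring
          have e6 : 2 / (N (i + 1) : ℝ) = 2 * (1 / (N (i + 1) : ℝ)) := by ring
          linarith
        · left
          have e := sum_map_ge (B := B1 ++ B0) (f := g) (c := 1 / ((m j : ℝ) + 1))
            (fun v hv => by
              have hv' : S v ∧ y < v := by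
                rcases List.mem_append.1 hv with h | h
                · exact h1 v h
                · exact ⟨(h0 v h).1, lt_of_le_of_lt hyu (h0 v h).2⟩
              have := le_g (v := v) (j := j) (by have := hG.le v hv'.1; linarith)
                (by have := hv'.2; linarith)
              rw [one_div_mul_eq_div]; exact this)
          rw [hsum, one_div_mul_eq_div] at e
          have e7 : (1 - b) / ((N j : ℝ) + 1) ≤ (1 - b) / ((m j : ℝ) + 1) := by
            have hb1 : 0 ≤ 1 - b := by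
              rw [← hsum, List.sum_append]
              have := sum_nonneg_of hpos1
              linarith
            apply div_le_div_of_nonneg_left hb1 (by linarith) (by linarith)
          have e8 : (1 - 2 / (N j : ℝ)) / ((N j : ℝ) + 1) + (2 / (N j : ℝ)) / 2
              ≤ (1 - b) / ((N j : ℝ) + 1) + b / 2 := by
            have : (1 - b) / ((N j : ℝ) + 1) + b / 2
                - ((1 - 2 / (N j : ℝ)) / ((N j : ℝ) + 1) + (2 / (N j : ℝ)) / 2)
                = (b - 2 / (N j : ℝ)) * (1 / 2 - 1 / ((N j : ℝ) + 1)) := by ring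
            have h3 : 0 ≤ (b - 2 / (N j : ℝ)) * (1 / 2 - 1 / ((N j : ℝ) + 1)) := by
              apply mul_nonneg (by linarith)
              have : 1 / ((N j : ℝ) + 1) ≤ 1 / 2 := by
                apply one_div_le_one_div_of_le (by norm_num); linarith
              linarith
            linarith
          have e9 : (1 / (N j : ℝ)) + (1 / (N j : ℝ)) / 2
              ≤ (1 - 2 / (N j : ℝ)) / ((N j : ℝ) + 1) + (2 / (N j : ℝ)) / 2 := by
            have : (1 - 2 / (N j : ℝ)) / ((N j : ℝ) + 1) + (2 / (N j : ℝ)) / 2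
                - ((1 / (N j : ℝ)) + (1 / (N j : ℝ)) / 2)
                = ((N j : ℝ) - 5) / (2 * (N j : ℝ) * ((N j : ℝ) + 1)) := by
              field_simp; ring
            have h3 : 0 ≤ ((N j : ℝ) - 5) / (2 * (N j : ℝ) * ((N j : ℝ) + 1)) := by
              apply div_nonneg (by linarith) (by positivity)
            linarith
          linarith

end Pool.Agent.Work.MP_70d3c3_lc
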