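import Mathlib

set_option autoImplicit false

namespace Pool.Agent.Work.MP_70d3c3_lc

/-- `m j = t j - 1` for the Sylvester type sequence. -/
def m : ℕ → ℕ
  | 0 => 1
  | (n + 1) => m n * (m n + 1)

lemma m_succ (n : ℕ) : m (n + 1) = m n * (m n + 1) := rfl

lemma m_pos (n : ℕ) : 0 < m n := by
  induction n with
  | zero => simp [m]
  | succ n ih => rw [m_succ]; positivity

lemma m_two : m 2 = 6 := by simp [m]

lemma m_lt_succ (n : ℕ) : m n < m (n + 1) := by
  rw [m_succ]; have := m_pos n; nlinarith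

lemma m_mono : StrictMono m := strictMono_nat_of_lt_succ m_lt_succ

lemma two_pow_le_m (n : ℕ) : 2 ^ n ≤ m n := by
  induction n with
  | zero => simp [m]
  | succ n ih =>
    rw [m_succ, pow_succ]
    have := m_pos n
    nlinarith

lemma mR_pos (n : ℕ) : (0 : ℝ) < (m n : ℝ) := by exact_mod_cast m_pos n

lemma mR_succ (n : ℕ) : (m (n + 1) : ℝ) = (m n : ℝ) * ((m n : ℝ) + 1) := by
  rw [m_succ]; push_cast; ring

lemma inv_succ (n : ℕ) : 1 / (m n : ℝ) - 1 / ((m n : ℝ) + 1) = 1 / (m (n + 1) : ℝ) := by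
  have := mR_pos n
  rw [mR_succ]
  field_simp
  ring

lemma exists_small (v : ℝ) (hv : 0 < v) : ∃ j : ℕ, 1 / (m (j + 1) : ℝ) < v := by
  obtain ⟨n, hn⟩ := exists_nat_gt (1 / v)
  refine ⟨n, ?_⟩
  have h1 : (n : ℝ) < 2 ^ (n + 1) := by
    have : n < 2 ^ (n + 1) := by
      calc n < 2 ^ n := Nat.lt_two_pow_self
        _ ≤ 2 ^ (n + 1) := Nat.pow_le_pow_right (by norm_num) (by omega)
    exact_mod_cast this
  have h2 : ((2 : ℝ) ^ (n + 1)) ≤ (m (n + 1) : ℝ) := by exact_mod_cast two_pow_le_m (n + 1)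
  have h3 : 1 / v < (m (n + 1) : ℝ) := by linarith
  rw [div_lt_iff₀ (mR_pos _)]
  rw [div_lt_iff₀ hv] at h3
  linarith

open Classical in
/-- the level of a size: the `j` with `1 / m (j+1) < v ≤ 1 / m j`. -/
noncomputable def lev (v : ℝ) : ℕ :=
  if h : ∃ j : ℕ, 1 / (m (j + 1) : ℝ) < v then Nat.find h else 0

lemma lev_lt (v : ℝ) (hv : 0 < v) : 1 / (m (lev v + 1) : ℝ) < v := by
  classical
  unfold lev
  rw [dif_pos (exists_small v hv)]
  exact Nat.find_spec (exists_small v hv)

lemma le_lev (v : ℝ) (hv : 0 < v) (hv1 : v ≤ 1) : v ≤ 1 / (m (lev v) : ℝ) := by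
  classical
  have h := exists_small v hv
  rcases Nat.eq_zero_or_pos (lev v) with h0 | h0
  · rw [h0]; simpa [m] using hv1
  · have h1 : lev v - 1 < Nat.find h := by
      have : lev v = Nat.find h := by unfold lev; rw [dif_pos h]
      omega
    have h2 := Nat.find_min h h1
    rw [not_lt] at h2
    rwa [Nat.sub_add_cancel h0] at h2

lemma inv_anti {a b : ℕ} (h : a ≤ b) : 1 / (m b : ℝ) ≤ 1 / (m a : ℝ) := by
  apply one_div_le_one_div_of_le (mR_pos a)
  exact_mod_cast m_mono.monotone h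

lemma lev_eq {v : ℝ} {j : ℕ} (h1 : 1 / (m (j + 1) : ℝ) < v) (h2 : v ≤ 1 / (m j : ℝ)) :
    lev v = j := by
  have hv : 0 < v := lt_trans (by have := mR_pos (j + 1); positivity) h1
  have hm1 : (1 : ℝ) ≤ m j := by exact_mod_cast m_pos j
  have hv1 : v ≤ 1 := le_trans h2 (by
    rw [div_le_one (mR_pos j)]; exact hm1)
  have a1 := lev_lt v hv
  have a2 := le_lev v hv hv1
  rcases lt_trichotomy (lev v) j with h | h | h
  · exfalso
    have : 1 / (m j : ℝ) ≤ 1 / (m (lev v + 1) : ℝ) := inv_anti (by omega)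
    linarith
  · exact h
  · exfalso
    have : 1 / (m (lev v) : ℝ) ≤ 1 / (m (j + 1) : ℝ) := inv_anti (by omega)
    linarith

/-- the waste allowance of an item. -/
noncomputable def g (v : ℝ) : ℝ :=
  if 1 / ((m (lev v) : ℝ) + 1) < v then 1 / (m (lev v + 1) : ℝ)
  else v / ((m (lev v) : ℝ) + 1)

lemma g_crit {v : ℝ} {j : ℕ} (h1 : 1 / ((m j : ℝ) + 1) < v) (h2 : v ≤ 1 / (m j : ℝ)) :
    g v = 1 / (m (j + 1) : ℝ) := by
  have h3 : 1 / (m (j + 1) : ℝ) ≤ 1 / ((m j : ℝ) + 1) := by
    apply one_div_le_one_div_of_le (by have := mR_pos j; linarith)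
    rw [mR_succ]
    have : (1 : ℝ) ≤ m j := by exact_mod_cast m_pos j
    nlinarith
  have hl : lev v = j := lev_eq (by linarith) h2
  unfold g
  rw [hl, if_pos h1]

lemma g_nonneg {v : ℝ} (hv : 0 ≤ v) : 0 ≤ g v := by
  unfold g
  have := mR_pos (lev v)
  have := mR_pos (lev v + 1)
  split_ifs <;> positivity

/-- upper bound used for the weights. -/
lemma g_le {v : ℝ} {j : ℕ} (hv : 0 < v) (h2 : v ≤ 1 / ((m j : ℝ) + 1)) :
    g v ≤ v / ((m j : ℝ) + 1) := by
  have hmj := mR_pos j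
  have hm1 : (1 : ℝ) ≤ m j := by exact_mod_cast m_pos j
  have hv1 : v ≤ 1 := le_trans h2 (by
    rw [div_le_one (by linarith)]; linarith)
  have a1 := lev_lt v hv
  have a2 := le_lev v hv hv1
  have hj : j ≤ lev v := by
    by_contra hc
    have : 1 / (m j : ℝ) ≤ 1 / (m (lev v + 1) : ℝ) := inv_anti (by omega)
    have h3 : 1 / ((m j : ℝ) + 1) < 1 / (m j : ℝ) := by
      apply one_div_lt_one_div_of_lt hmj; linarith
    linarith
  unfold g
  have hp := mR_pos (lev v)
  split_ifs with hc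
  · -- critical item of level > j
    have hlt : j < lev v := by
      rcases hj.lt_or_eq with h | h
      · exact h
      · rw [← h] at hc; linarith
    have h3 : (m j : ℝ) + 1 ≤ m (lev v) := by
      have : m j < m (lev v) := m_mono hlt
      exact_mod_cast this
    rw [mR_succ, div_le_div_iff₀ (by positivity) (by linarith)]
    have h4 : 1 < v * ((m (lev v) : ℝ) + 1) := by
      rwa [div_lt_iff₀ (by linarith)] at hc
    nlinarith
  · apply div_le_div_of_nonneg_left hv.le (by linarith)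
    have : (m j : ℝ) ≤ m (lev v) := by exact_mod_cast m_mono.monotone hj
    linarith

/-- lower bound used in the packing analysis. -/
lemma le_g {v : ℝ} {j : ℕ} (hv1 : v ≤ 1) (h1 : 1 / (m (j + 1) : ℝ) < v) :
    v / ((m j : ℝ) + 1) ≤ g v := by
  have hv : 0 < v := lt_trans (by have := mR_pos (j + 1); positivity) h1
  have a1 := lev_lt v hv
  have a2 := le_lev v hv hv1
  have hj : lev v ≤ j := by
    by_contra hc
    have : 1 / (m (lev v) : ℝ) ≤ 1 / (m (j + 1) : ℝ) := inv_anti (by omega)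
    linarith
  have hp := mR_pos (lev v)
  have h5 : (m (lev v) : ℝ) ≤ m j := by exact_mod_cast m_mono.monotone hj
  have h6 : v / ((m j : ℝ) + 1) ≤ v / ((m (lev v) : ℝ) + 1) := by
    apply div_le_div_of_nonneg_left hv.le (by linarith); linarith
  unfold g
  split_ifs with hc
  · refine le_trans h6 ?_
    rw [mR_succ, div_le_div_iff₀ (by linarith) (by positivity)]
    rw [le_div_iff₀ hp] at a2
    nlinarith
  · exact h6

/-- the weight of an item. -/
noncomputable def W (v : ℝ) : ℝ := v + g v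

lemma W_nonneg {v : ℝ} (hv : 0 ≤ v) : 0 ≤ W v := add_nonneg hv (g_nonneg hv)

lemma summable_inv : Summable (fun i : ℕ => 1 / (m i : ℝ)) := by
  refine Summable.of_nonneg_of_le (fun i => by have := mR_pos i; positivity) (fun i => ?_)
    (summable_geometric_two)
  rw [one_div_pow]
  apply one_div_le_one_div_of_le (by positivity)
  exact_mod_cast two_pow_le_m i

/-- tails of the series. -/
noncomputable def T (j : ℕ) : ℝ := ∑' i : ℕ, 1 / (m (i + j) : ℝ)

lemma T_eq (j : ℕ) : T j = 1 / (m j : ℝ) + T (j + 1) := by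
  unfold T
  have h : Summable (fun i : ℕ => 1 / (m (i + j) : ℝ)) :=
    (summable_nat_add_iff j).2 summable_inv
  rw [h.tsum_eq_zero_add]
  simp only [zero_add]
  congr 1
  apply tsum_congr
  intro i
  rw [show i + 1 + j = i + (j + 1) by omega]

lemma T_nonneg (j : ℕ) : 0 ≤ T j :=
  tsum_nonneg (fun i => by have := mR_pos (i + j); positivity)

lemma sum_g_le {ι : Type*} [DecidableEq ι] (v : ι → ℝ) :
    ∀ (n : ℕ) (s : Finset ι), s.card = n → ∀ j : ℕ, (∀ i ∈ s, 0 < v i) →
      ∑ i ∈ s, v i ≤ 1 / (m j : ℝ) → ∑ i ∈ s, g (v i) ≤ T (j + 1) := by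
  intro n
  induction n with
  | zero =>
    intro s hs j _ _
    rw [Finset.card_eq_zero] at hs
    rw [hs, Finset.sum_empty]
    exact T_nonneg _
  | succ n ih =>
    intro s hs j hpos hsum
    by_cases hc : ∃ i ∈ s, 1 / ((m j : ℝ) + 1) < v i
    · obtain ⟨i, hi, hvi⟩ := hc
      have hle : v i ≤ 1 / (m j : ℝ) := by
        refine le_trans ?_ hsum
        exact Finset.single_le_sum (f := v) (fun k hk => (hpos k hk).le) hi
      rw [← Finset.add_sum_erase s _ hi] at hsum ⊢
      rw [g_crit hvi hle, T_eq (j + 1)]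
      have := ih (s.erase i) (by rw [Finset.card_erase_of_mem hi, hs]; rfl) (j + 1)
        (fun k hk => hpos k (Finset.mem_of_mem_erase hk)) (by
          rw [← inv_succ]; linarith)
      linarith
    · push Not at hc
      have h1 : ∑ i ∈ s, g (v i) ≤ ∑ i ∈ s, v i / ((m j : ℝ) + 1) :=
        Finset.sum_le_sum (fun i hi => g_le (hpos i hi) (hc i hi))
      rw [← Finset.sum_div] at h1
      refine le_trans h1 ?_
      rw [T_eq (j + 1)]
      have h2 : (∑ i ∈ s, v i) / ((m j : ℝ) + 1) ≤ (1 / (m j : ℝ)) / ((m j : ℝ) + 1) := by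
        apply div_le_div_of_nonneg_right hsum
        have := mR_pos j; linarith
      have h3 : (1 / (m j : ℝ)) / ((m j : ℝ) + 1) = 1 / (m (j + 1) : ℝ) := by
        rw [mR_succ]; have := mR_pos j; field_simp
      have := T_nonneg (j + 1 + 1)
      linarith

lemma sum_W_le {ι : Type*} [DecidableEq ι] (v : ι → ℝ) (s : Finset ι)
    (hpos : ∀ i ∈ s, 0 < v i) (hsum : ∑ i ∈ s, v i ≤ 1) :
    ∑ i ∈ s, W (v i) ≤ T 0 := by
  have h := sum_g_le v s.card s rfl 0 hpos (by simpa [m] using hsum)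
  rw [T_eq 0]
  unfold W
  rw [Finset.sum_add_distrib]
  have : (1 : ℝ) / (m 0 : ℝ) = 1 := by simp [m]
  linarith

/-- harmonic class bound. -/
lemma W_class {v : ℝ} {c : ℕ} (hc : 0 < c) (h1 : 1 / ((c : ℝ) + 1) < v)
    (h2 : v ≤ 1 / (c : ℝ)) : 1 / (c : ℝ) ≤ W v := by
  have hcR : (0 : ℝ) < c := by exact_mod_cast hc
  have hv : 0 < v := lt_trans (by positivity) h1
  have hv1 : v ≤ 1 := le_trans h2 (by
    rw [div_le_one hcR]; exact_mod_cast hc)
  have a1 := lev_lt v hv
  have a2 := le_lev v hv hv1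
  have hp := mR_pos (lev v)
  -- c ≥ m (lev v)
  unfold W g
  split_ifs with hcr
  · -- c = m (lev v)
    have e1 : (c : ℝ) < (m (lev v) : ℝ) + 1 := by
      have := lt_of_lt_of_le hcr h2
      rwa [one_div_lt_one_div (by linarith) hcR] at this
    have e2 : (m (lev v) : ℝ) < (c : ℝ) + 1 := by
      have := lt_of_lt_of_le h1 a2
      rwa [one_div_lt_one_div (by linarith) hp] at this
    have e3 : c = m (lev v) := by
      have e1' : c < m (lev v) + 1 := by exact_mod_cast e1
      have e2' : m (lev v) < c + 1 := by exact_mod_cast e2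
      omega
    rw [← inv_succ, ← e3]
    linarith
  · rw [not_lt] at hcr
    have e1 : (m (lev v) : ℝ) + 1 ≤ c := by
      have e0 : 1 / ((c : ℝ) + 1) < 1 / ((m (lev v) : ℝ) + 1) := lt_of_lt_of_le h1 hcr
      rw [one_div_lt_one_div (by linarith) (by linarith)] at e0
      have : m (lev v) < c := by
        have : ((m (lev v) : ℝ)) < c := by linarith
        exact_mod_cast this
      exact_mod_cast this
    have e2 : 1 < v * ((c : ℝ) + 1) := by
      rwa [div_lt_iff₀ (by linarith)] at h1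
    have e3 : v + v / ((m (lev v) : ℝ) + 1) = v * ((m (lev v) : ℝ) + 2) / ((m (lev v) : ℝ) + 1) := by
      field_simp; ring
    rw [e3, div_le_div_iff₀ hcR (by linarith)]
    nlinarith

end Pool.Agent.Work.MP_70d3c3_lc
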