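import Pool.Agent.Work.MP_70d3c3_lc.Group
import Pool.Agent.Work.MP_70d3c3_lc.Frame

set_option autoImplicit false

namespace Pool.Agent.Work.MP_70d3c3_lc

/-- the state of the rule with three open bins: contents and labels. -/
structure St where
  A1 : List ℝ
  A2 : List ℝ
  P : List ℝ
  l1 : ℕ
  l2 : ℕ
  lP : ℕ
  nxt : ℕ

open Classical in
/-- state change when item `v` arrives -/
noncomputable def step (s : St) (v : ℝ) : St :=
  if v ≤ 1 - s.A1.sum then { s with A1 := v :: s.A1 }
  else if v ≤ 1 - s.A2.sum then
    if 1 - s.A2.sum - v < 1 - s.A1.sum then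
      { s with A1 := v :: s.A2, l1 := s.l2, A2 := s.A1, l2 := s.l1 }
    else { s with A2 := v :: s.A2 }
  else if v ≤ 1 - s.P.sum then { s with P := v :: s.P }
  else if 1 - s.P.sum ≤ (s.P.map g).sum then
    { s with P := [v], lP := s.nxt, nxt := s.nxt + 1 }
  else
    { A1 := s.A2, A2 := s.P, P := [v], l1 := s.l2, l2 := s.lP, lP := s.nxt, nxt := s.nxt + 1 }

open Classical in
/-- the bin chosen for item `v` -/
noncomputable def choose (s : St) (v : ℝ) : ℕ :=
  if v ≤ 1 - s.A1.sum then s.l1
  else if v ≤ 1 - s.A2.sum then s.l2
  else if v ≤ 1 - s.P.sum then s.lP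
  else s.nxt

/-- initial state -/
def ini : St := ⟨[], [], [], 0, 1, 2, 3⟩

/-- state after the list `L` -/
noncomputable def run (L : List ℝ) : St := L.foldl step ini

/-- the on-line rule -/
noncomputable def rule (p : List ℝ) (x : ℝ) : ℕ := choose (run p) x

lemma run_nil : run [] = ini := rfl

lemma run_append (L : List ℝ) (x : ℝ) : run (L ++ [x]) = step (run L) x := by
  unfold run; rw [List.foldl_append]; rfl

/-- invariant about labels and loads -/
structure Lab (L : List ℝ) (s : St) : Prop where
  d12 : s.l1 ≠ s.l2
  d1P : s.l1 ≠ s.lP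
  d2P : s.l2 ≠ s.lP
  n1 : s.l1 < s.nxt
  n2 : s.l2 < s.nxt
  nP : s.lP < s.nxt
  e1 : load rule L s.l1 = s.A1.sum
  e2 : load rule L s.l2 = s.A2.sum
  eP : load rule L s.lP = s.P.sum
  f : ∀ b, s.nxt ≤ b → load rule L b = 0
  le : ∀ b, load rule L b ≤ 1
  us : ∀ b ∈ used rule L, b < s.nxt

variable {S : ℝ → Prop} {N : ℕ → ℕ}

lemma lab_run (hS1 : ∀ v, S v → v ≤ 1) : ∀ L : List ℝ, (∀ y ∈ L, S y) → Lab L (run L) := by
  intro L
  induction L using List.reverseRecOn with
  | nil =>
    intro _
    rw [run_nil]
    constructor <;> simp [ini]
  | append_singleton L x ih =>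
    intro hL
    have hx : S x := hL x (by simp)
    have hx1 := hS1 x hx
    have H := ih (fun y hy => hL y (by simp [hy]))
    rw [run_append]
    set s := run L with hs
    have hru : rule L x = choose s x := by unfold rule; rw [hs]
    obtain ⟨d12, d1P, d2P, n1, n2, nP, e1, e2, eP, f, le, us⟩ := H
    have hlo : ∀ b, load rule (L ++ [x]) b = load rule L b + if choose s x = b then x else 0 := by
      intro b; rw [load_append, hru]
    have hus : ∀ b, b ∈ used rule (L ++ [x]) → b = choose s x ∨ b ∈ used rule L := by
      intro b hb; rw [used_append, hru] at hb; exact Finset.mem_insert.1 hb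
    by_cases c1 : x ≤ 1 - s.A1.sum
    · have hc : choose s x = s.l1 := by unfold choose; rw [if_pos c1]
      have hst : step s x = { s with A1 := x :: s.A1 } := by unfold step; rw [if_pos c1]
      rw [hst]
      refine ⟨d12, d1P, d2P, n1, n2, nP, ?_, ?_, ?_, ?_, ?_, ?_⟩
      · show load rule (L ++ [x]) s.l1 = (x :: s.A1).sum
        rw [hlo, hc, if_pos rfl, e1, List.sum_cons]; ring
      · show load rule (L ++ [x]) s.l2 = s.A2.sum
        rw [hlo, hc, if_neg d12, e2]; ring
      · show load rule (L ++ [x]) s.lP = s.P.sum
        rw [hlo, hc, if_neg d1P, eP]; ring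
      · intro b hb
        have hb' : s.nxt ≤ b := hb
        rw [hlo, hc, if_neg (by omega), f b hb']; ring
      · intro b
        rw [hlo, hc]
        split_ifs with hb
        · rw [← hb, e1]; linarith
        · have := le b; linarith
      · intro b hb
        show b < s.nxt
        rcases hus b hb with h | h
        · rw [h, hc]; exact n1
        · exact us b h
    by_cases c2 : x ≤ 1 - s.A2.sum
    · have hc : choose s x = s.l2 := by unfold choose; rw [if_neg c1, if_pos c2]
      by_cases c3 : 1 - s.A2.sum - x < 1 - s.A1.sum
      · have hst : step s x = { s with A1 := x :: s.A2, l1 := s.l2, A2 := s.A1, l2 := s.l1 } := by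
          unfold step; rw [if_neg c1, if_pos c2, if_pos c3]
        rw [hst]
        refine ⟨d12.symm, d2P, d1P, n2, n1, nP, ?_, ?_, ?_, ?_, ?_, ?_⟩
        · show load rule (L ++ [x]) s.l2 = (x :: s.A2).sum
          rw [hlo, hc, if_pos rfl, e2, List.sum_cons]; ring
        · show load rule (L ++ [x]) s.l1 = s.A1.sum
          rw [hlo, hc, if_neg d12.symm, e1]; ring
        · show load rule (L ++ [x]) s.lP = s.P.sum
          rw [hlo, hc, if_neg d2P, eP]; ring
        · intro b hb
          have hb' : s.nxt ≤ b := hb
          rw [hlo, hc, if_neg (by omega), f b hb']; ring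
        · intro b
          rw [hlo, hc]
          split_ifs with hb
          · rw [← hb, e2]; linarith
          · have := le b; linarith
        · intro b hb
          show b < s.nxt
          rcases hus b hb with h | h
          · rw [h, hc]; exact n2
          · exact us b h
      · have hst : step s x = { s with A2 := x :: s.A2 } := by
          unfold step; rw [if_neg c1, if_pos c2, if_neg c3]
        rw [hst]
        refine ⟨d12, d1P, d2P, n1, n2, nP, ?_, ?_, ?_, ?_, ?_, ?_⟩
        · show load rule (L ++ [x]) s.l1 = s.A1.sum
          rw [hlo, hc, if_neg d12.symm, e1]; ring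
        · show load rule (L ++ [x]) s.l2 = (x :: s.A2).sum
          rw [hlo, hc, if_pos rfl, e2, List.sum_cons]; ring
        · show load rule (L ++ [x]) s.lP = s.P.sum
          rw [hlo, hc, if_neg d2P, eP]; ring
        · intro b hb
          have hb' : s.nxt ≤ b := hb
          rw [hlo, hc, if_neg (by omega), f b hb']; ring
        · intro b
          rw [hlo, hc]
          split_ifs with hb
          · rw [← hb, e2]; linarith
          · have := le b; linarith
        · intro b hb
          show b < s.nxt
          rcases hus b hb with h | h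
          · rw [h, hc]; exact n2
          · exact us b h
    by_cases c4 : x ≤ 1 - s.P.sum
    · have hc : choose s x = s.lP := by unfold choose; rw [if_neg c1, if_neg c2, if_pos c4]
      have hst : step s x = { s with P := x :: s.P } := by
        unfold step; rw [if_neg c1, if_neg c2, if_pos c4]
      rw [hst]
      refine ⟨d12, d1P, d2P, n1, n2, nP, ?_, ?_, ?_, ?_, ?_, ?_⟩
      · show load rule (L ++ [x]) s.l1 = s.A1.sum
        rw [hlo, hc, if_neg d1P.symm, e1]; ring
      · show load rule (L ++ [x]) s.l2 = s.A2.sum
        rw [hlo, hc, if_neg d2P.symm, e2]; ring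
      · show load rule (L ++ [x]) s.lP = (x :: s.P).sum
        rw [hlo, hc, if_pos rfl, eP, List.sum_cons]; ring
      · intro b hb
        have hb' : s.nxt ≤ b := hb
        rw [hlo, hc, if_neg (by omega), f b hb']; ring
      · intro b
        rw [hlo, hc]
        split_ifs with hb
        · rw [← hb, eP]; linarith
        · have := le b; linarith
      · intro b hb
        show b < s.nxt
        rcases hus b hb with h | h
        · rw [h, hc]; exact nP
        · exact us b h
    have hc : choose s x = s.nxt := by unfold choose; rw [if_neg c1, if_neg c2, if_neg c4]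
    have hle : ∀ b, load rule (L ++ [x]) b ≤ 1 := by
      intro b
      rw [hlo, hc]
      split_ifs with hb
      · rw [← hb, f _ le_rfl]; linarith
      · have := le b; linarith
    have hf : ∀ b, s.nxt + 1 ≤ b → load rule (L ++ [x]) b = 0 := by
      intro b hb
      rw [hlo, hc, if_neg (by omega), f b (by omega)]; ring
    have hu : ∀ b ∈ used rule (L ++ [x]), b < s.nxt + 1 := by
      intro b hb
      rcases hus b hb with h | h
      · rw [h, hc]; omega
      · have := us b h; omega
    by_cases c5 : 1 - s.P.sum ≤ (s.P.map g).sum
    · have hst : step s x = { s with P := [x], lP := s.nxt, nxt := s.nxt + 1 } := by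
        unfold step; rw [if_neg c1, if_neg c2, if_neg c4, if_pos c5]
      rw [hst]
      refine ⟨d12, by show s.l1 ≠ s.nxt; omega, by show s.l2 ≠ s.nxt; omega,
        by show s.l1 < s.nxt + 1; omega, by show s.l2 < s.nxt + 1; omega,
        by show s.nxt < s.nxt + 1; omega, ?_, ?_, ?_, hf, hle, hu⟩
      · show load rule (L ++ [x]) s.l1 = s.A1.sum
        rw [hlo, hc, if_neg (by omega), e1]; ring
      · show load rule (L ++ [x]) s.l2 = s.A2.sum
        rw [hlo, hc, if_neg (by omega), e2]; ring
      · show load rule (L ++ [x]) s.nxt = [x].sum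
        rw [hlo, hc, if_pos rfl, f _ le_rfl]; simp
    · have hst : step s x = { A1 := s.A2, A2 := s.P, P := [x], l1 := s.l2, l2 := s.lP,
                              lP := s.nxt, nxt := s.nxt + 1 } := by
        unfold step; rw [if_neg c1, if_neg c2, if_neg c4, if_neg c5]
      rw [hst]
      refine ⟨d2P, by show s.l2 ≠ s.nxt; omega, by show s.lP ≠ s.nxt; omega,
        by show s.l2 < s.nxt + 1; omega, by show s.lP < s.nxt + 1; omega,
        by show s.nxt < s.nxt + 1; omega, ?_, ?_, ?_, hf, hle, hu⟩
      · show load rule (L ++ [x]) s.l2 = s.A2.sum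
        rw [hlo, hc, if_neg (by omega), e2]; ring
      · show load rule (L ++ [x]) s.lP = s.P.sum
        rw [hlo, hc, if_neg (by omega), eP]; ring
      · show load rule (L ++ [x]) s.nxt = [x].sum
        rw [hlo, hc, if_pos rfl, f _ le_rfl]; simp

/-- the amount of credit -/
noncomputable def cred (L : List ℝ) (s : St) : ℝ :=
  (L.map W).sum - s.A1.sum - s.A2.sum - (s.P.map W).sum - ((s.nxt : ℝ) - 3) + 1 / 2

/-- invariant about contents and credit -/
structure Inv (S : ℝ → Prop) (L : List ℝ) (s : St) : Prop where
  i1 : ∀ y ∈ s.A1, S y
  i2 : ∀ y ∈ s.A2, S y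
  iP : ∀ y ∈ s.P, S y ∧ 1 - s.A2.sum < y
  s1 : s.A1.sum ≤ 1
  s2 : s.A2.sum ≤ s.A1.sum
  sP : s.P.sum ≤ 1
  pot : (1 - s.A1.sum) / 2 ≤ cred L s ∨
    ∃ (u : ℝ) (B0 B1 : List ℝ), s.A2 = B1 ++ B0 ∧ (∀ y ∈ B0, u < y) ∧
      (∀ y ∈ B1, 1 - s.A1.sum < y) ∧ 5 / 6 ≤ B0.sum ∧ 1 - s.A1.sum ≤ u ∧
      min ((1 - s.A1.sum) / 2) ((s.A2.map g).sum - u / 2) ≤ cred L s

lemma cred_append (L : List ℝ) (s s' : St) (x : ℝ) :
    cred (L ++ [x]) s' = cred L s + W x + (s.A1.sum - s'.A1.sum) + (s.A2.sum - s'.A2.sum)
      + ((s.P.map W).sum - (s'.P.map W).sum) + ((s.nxt : ℝ) - (s'.nxt : ℝ)) := by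
  unfold cred
  rw [List.map_append, List.sum_append, List.map_singleton, List.sum_singleton]
  ring

lemma sum_map_W (B : List ℝ) : (B.map W).sum = B.sum + (B.map g).sum := by
  induction B with
  | nil => simp
  | cons x B ih =>
    rw [List.map_cons, List.map_cons, List.sum_cons, List.sum_cons, List.sum_cons, ih]
    unfold W; ring

lemma inv_run (hG : Grp S N) : ∀ L : List ℝ, (∀ y ∈ L, S y) → Inv S L (run L) := by
  intro L
  induction L using List.reverseRecOn with
  | nil =>
    intro _
    rw [run_nil]
    refine ⟨by simp [ini], by simp [ini], by simp [ini], by simp [ini], by simp [ini],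
      by simp [ini], ?_⟩
    left
    simp [ini, cred]
  | append_singleton L x ih =>
    intro hL
    have hx : S x := hL x (by simp)
    have hx6 := hG.le x hx
    have hx0 := hG.pos x hx
    have hgx : 0 ≤ g x := g_nonneg hx0.le
    have hWx : W x = x + g x := rfl
    have H := ih (fun y hy => hL y (by simp [hy]))
    rw [run_append]
    set s := run L with hs
    obtain ⟨i1, i2, iP, s1, s2, sP, pot⟩ := H
    by_cases c1 : x ≤ 1 - s.A1.sum
    · have hst : step s x = { s with A1 := x :: s.A1 } := by unfold step; rw [if_pos c1]
      rw [hst]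
      have hcr := cred_append L s { s with A1 := x :: s.A1 } x
      simp only [List.sum_cons] at hcr
      refine ⟨?_, i2, iP, ?_, ?_, sP, ?_⟩
      · intro y hy
        rcases List.mem_cons.1 hy with h | h
        · rw [h]; exact hx
        · exact i1 y h
      · show (x :: s.A1).sum ≤ 1
        rw [List.sum_cons]; linarith
      · show s.A2.sum ≤ (x :: s.A1).sum
        rw [List.sum_cons]; linarith
      · simp only [List.sum_cons]
        rcases pot with h | ⟨u, B0, B1, hB, h0, h1, h2, h3, h4⟩
        · left; linarith
        · right
          refine ⟨u, B0, B1, hB, h0, fun y hy => by have := h1 y hy; linarith, h2,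
            by linarith, ?_⟩
          have e1 : min ((1 - (x + s.A1.sum)) / 2) ((s.A2.map g).sum - u / 2)
              ≤ min ((1 - s.A1.sum) / 2) ((s.A2.map g).sum - u / 2) :=
            min_le_min (by linarith) le_rfl
          linarith
    rw [not_le] at c1
    by_cases c2 : x ≤ 1 - s.A2.sum
    · by_cases c3 : 1 - s.A2.sum - x < 1 - s.A1.sum
      · have hst : step s x = { s with A1 := x :: s.A2, l1 := s.l2, A2 := s.A1, l2 := s.l1 } := by
          unfold step; rw [if_neg (not_le.2 c1), if_pos c2, if_pos c3]
        rw [hst]
        have hcr := cred_append L s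
          { s with A1 := x :: s.A2, l1 := s.l2, A2 := s.A1, l2 := s.l1 } x
        simp only [List.sum_cons] at hcr
        refine ⟨?_, i1, ?_, ?_, ?_, sP, ?_⟩
        · intro y hy
          rcases List.mem_cons.1 hy with h | h
          · rw [h]; exact hx
          · exact i2 y h
        · intro y hy
          have := iP y hy
          exact ⟨this.1, by show 1 - s.A1.sum < y; linarith [this.2]⟩
        · show (x :: s.A2).sum ≤ 1
          rw [List.sum_cons]; linarith
        · show s.A1.sum ≤ (x :: s.A2).sum
          rw [List.sum_cons]; linarith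
        · left
          simp only [List.sum_cons]
          rcases pot with h | ⟨u, B0, B1, hB, h0, h1, h2, h3, h4⟩
          · linarith
          · have hsum : ((x :: B1) ++ B0).sum = x + s.A2.sum := by
              rw [hB, List.cons_append, List.sum_cons]
            have hx2 := X2 hG (B0 := B0) (B1 := x :: B1) (u := u) (y := 1 - s.A1.sum)
              (fun v hv => ⟨i2 v (by rw [hB]; exact List.mem_append.2 (Or.inr hv)), h0 v hv⟩)
              (fun v hv => by
                rcases List.mem_cons.1 hv with h | h
                · rw [h]; exact ⟨hx, c1⟩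
                · exact ⟨i2 v (by rw [hB]; exact List.mem_append.2 (Or.inl h)), h1 v h⟩)
              h2 (by linarith) h3 (by rw [hsum]; linarith) (by rw [hsum]; linarith)
            rw [hsum] at hx2
            have hg2 : (((x :: B1) ++ B0).map g).sum = g x + (s.A2.map g).sum := by
              rw [hB, List.cons_append, List.map_cons, List.sum_cons]
            rw [hg2] at hx2
            have e1 : (1 - (x + s.A2.sum)) / 2
                ≤ min ((1 - s.A1.sum) / 2) ((s.A2.map g).sum - u / 2) + g x := by
              rcases le_total ((1 - s.A1.sum) / 2) ((s.A2.map g).sum - u / 2) with h | h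
              · rw [min_eq_left h]; linarith
              · rw [min_eq_right h]; linarith
            linarith
      · have hst : step s x = { s with A2 := x :: s.A2 } := by
          unfold step; rw [if_neg (not_le.2 c1), if_pos c2, if_neg c3]
        rw [hst]
        have hcr := cred_append L s { s with A2 := x :: s.A2 } x
        simp only [List.sum_cons] at hcr
        refine ⟨i1, ?_, ?_, s1, ?_, sP, ?_⟩
        · intro y hy
          rcases List.mem_cons.1 hy with h | h
          · rw [h]; exact hx
          · exact i2 y h
        · intro y hy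
          have := iP y hy
          exact ⟨this.1, by show 1 - (x :: s.A2).sum < y; rw [List.sum_cons]; linarith [this.2]⟩
        · show (x :: s.A2).sum ≤ s.A1.sum
          rw [List.sum_cons]; linarith
        · simp only [List.map_cons, List.sum_cons]
          rcases pot with h | ⟨u, B0, B1, hB, h0, h1, h2, h3, h4⟩
          · left; linarith
          · right
            refine ⟨u, B0, x :: B1, by rw [hB]; rfl, h0, ?_, h2, h3, ?_⟩
            · intro y hy
              rcases List.mem_cons.1 hy with h | h
              · rw [h]; exact c1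
              · exact h1 y h
            · have e1 : min ((1 - s.A1.sum) / 2) (g x + (s.A2.map g).sum - u / 2)
                  ≤ min ((1 - s.A1.sum) / 2) ((s.A2.map g).sum - u / 2) + g x := by
                rcases le_total ((1 - s.A1.sum) / 2) ((s.A2.map g).sum - u / 2) with h | h
                · rw [min_eq_left h]
                  exact le_trans (min_le_left _ _) (by linarith)
                · rw [min_eq_right h]
                  exact le_trans (min_le_right _ _) (by linarith)
              linarith
    rw [not_le] at c2
    by_cases c4 : x ≤ 1 - s.P.sum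
    · have hst : step s x = { s with P := x :: s.P } := by
        unfold step; rw [if_neg (not_le.2 c1), if_neg (not_le.2 c2), if_pos c4]
      rw [hst]
      have hcr := cred_append L s { s with P := x :: s.P } x
      simp only [List.map_cons, List.sum_cons] at hcr
      refine ⟨i1, i2, ?_, s1, s2, ?_, ?_⟩
      · intro y hy
        rcases List.mem_cons.1 hy with h | h
        · rw [h]; exact ⟨hx, c2⟩
        · exact iP y h
      · show (x :: s.P).sum ≤ 1
        rw [List.sum_cons]; linarith
      · rcases pot with h | ⟨u, B0, B1, hB, h0, h1, h2, h3, h4⟩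
        · left
          show (1 - s.A1.sum) / 2 ≤ _
          linarith
        · right
          refine ⟨u, B0, B1, hB, h0, h1, h2, h3, ?_⟩
          show min ((1 - s.A1.sum) / 2) ((s.A2.map g).sum - u / 2) ≤ _
          linarith
    rw [not_le] at c4
    have hP56 : 5 / 6 ≤ s.P.sum := by linarith
    by_cases c5 : 1 - s.P.sum ≤ (s.P.map g).sum
    · have hst : step s x = { s with P := [x], lP := s.nxt, nxt := s.nxt + 1 } := by
        unfold step
        rw [if_neg (not_le.2 c1), if_neg (not_le.2 c2), if_neg (not_le.2 c4), if_pos c5]
      rw [hst]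
      have hcr := cred_append L s { s with P := [x], lP := s.nxt, nxt := s.nxt + 1 } x
      simp only [List.map_singleton, List.sum_singleton] at hcr
      push_cast at hcr
      rw [sum_map_W] at hcr
      refine ⟨i1, i2, ?_, s1, s2, ?_, ?_⟩
      · intro y hy
        rw [List.mem_singleton.1 hy]
        exact ⟨hx, c2⟩
      · show [x].sum ≤ 1
        rw [List.sum_singleton]; linarith
      · rcases pot with h | ⟨u, B0, B1, hB, h0, h1, h2, h3, h4⟩
        · left
          show (1 - s.A1.sum) / 2 ≤ _
          linarith
        · right
          refine ⟨u, B0, B1, hB, h0, h1, h2, h3, ?_⟩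
          show min ((1 - s.A1.sum) / 2) ((s.A2.map g).sum - u / 2) ≤ _
          linarith
    · rw [not_le] at c5
      have hst : step s x = { A1 := s.A2, A2 := s.P, P := [x], l1 := s.l2, l2 := s.lP,
                              lP := s.nxt, nxt := s.nxt + 1 } := by
        unfold step
        rw [if_neg (not_le.2 c1), if_neg (not_le.2 c2), if_neg (not_le.2 c4),
          if_neg (not_le.2 c5)]
      rw [hst]
      have hcr := cred_append L s (St.mk s.A2 s.P [x] s.l2 s.lP s.nxt (s.nxt + 1)) x
      simp only [List.map_singleton, List.sum_singleton] at hcr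
      push_cast at hcr
      rw [sum_map_W] at hcr
      have hu2 : 0 ≤ 1 - s.A2.sum := by linarith
      have hord : s.P.sum ≤ s.A2.sum := by
        by_contra hc
        rw [not_le] at hc
        have := X2 hG (B0 := s.P) (B1 := []) (u := 1 - s.A2.sum) (y := 1 - s.A2.sum)
          iP (by simp) hP56 hu2 le_rfl (by simpa using sP) (by simp; linarith)
        rw [List.nil_append] at this
        linarith
      refine ⟨i2, fun y hy => (iP y hy).1, ?_, by linarith, hord, ?_, ?_⟩
      · intro y hy
        rw [List.mem_singleton.1 hy]
        exact ⟨hx, c4⟩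
      · show [x].sum ≤ 1
        rw [List.sum_singleton]; linarith
      · right
        refine ⟨1 - s.A2.sum, s.P, [], by simp, fun y hy => (iP y hy).2, by simp, hP56,
          le_rfl, ?_⟩
        show min ((1 - s.A2.sum) / 2) ((s.P.map g).sum - (1 - s.A2.sum) / 2) ≤ _
        rcases pot with h | ⟨u, B0, B1, hB, h0, h1, h2, h3, h4⟩
        · refine le_trans (min_le_right _ _) ?_
          linarith
        · have hx3 := X3 hG (B0 := B0) (B1 := B1) (P := s.P) (u := u) (y := 1 - s.A1.sum)
            (fun v hv => ⟨i2 v (by rw [hB]; exact List.mem_append.2 (Or.inr hv)), h0 v hv⟩)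
            (fun v hv => ⟨i2 v (by rw [hB]; exact List.mem_append.2 (Or.inl hv)), h1 v hv⟩)
            h2 (by linarith) h3 (by rw [← hB]; linarith) (by rw [← hB]; exact iP) hP56
          rw [← hB] at hx3
          rcases le_total ((1 - s.A1.sum) / 2) ((s.A2.map g).sum - u / 2) with h | h
          · rw [min_eq_left h] at h4
            refine le_trans (min_le_right _ _) ?_
            linarith
          · rw [min_eq_right h] at h4
            rcases hx3 with h5 | h5
            · refine le_trans (min_le_right _ _) ?_
              linarith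
            · refine le_trans (min_le_left _ _) ?_
              linarith

end Pool.Agent.Work.MP_70d3c3_lc
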